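import Pool.Agent.Lib.MP_d28c7d_co.Typical

set_option autoImplicit false

namespace Pool.Agent.Lib.MP_d28c7d_co

open Finset

/-- Index type of the forcing configuration. -/
abbrev Idx {n : ℕ} (v : Fin n) : Type := {s : Fin n // s ≠ v} ⊕ Fin n

def posR {n : ℕ} (u p : Fin n) : ℕ :=
  if (p : ℕ) + 1 = n then 0 else if (p : ℕ) + 2 = n then n + 2 * u + 1 else p + 1

def valR {n : ℕ} (π : Equiv.Perm (Fin n)) (u l p : Fin n) : ℕ :=
  if (π p : ℕ) + 1 < π l then π p else if (π p : ℕ) + 1 = π l then n + 4 * π u
  else if (π p : ℕ) = π l then n + 4 * π u + 2 else if (π p : ℕ) = π l + 1 then n + 4 * π u + 3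
  else 6 * n + π p

def posA {n : ℕ} (u v : Fin n) : Idx v → ℤ
  | Sum.inl s => ((n + 2 * (s.1 : ℕ) : ℕ) : ℤ)
  | Sum.inr p => (posR u p : ℤ)

def valA {n : ℕ} (π : Equiv.Perm (Fin n)) (u v l : Fin n) : Idx v → ℤ
  | Sum.inl s => ((n + 4 * (π s.1 : ℕ) + 1 : ℕ) : ℤ)
  | Sum.inr p => (valR π u l p : ℤ)

theorem posA_inl {n : ℕ} (u v : Fin n) (s : {s : Fin n // s ≠ v}) :
    posA u v (Sum.inl s) = ((n + 2 * (s.1 : ℕ) : ℕ) : ℤ) := rfl
theorem posA_inr {n : ℕ} (u v p : Fin n) : posA u v (Sum.inr p) = (posR u p : ℤ) := rfl
theorem valA_inl {n : ℕ} (π : Equiv.Perm (Fin n)) (u v l : Fin n) (s : {s : Fin n // s ≠ v}) :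
    valA π u v l (Sum.inl s) = ((n + 4 * (π s.1 : ℕ) + 1 : ℕ) : ℤ) := rfl
theorem valA_inr {n : ℕ} (π : Equiv.Perm (Fin n)) (u v l p : Fin n) :
    valA π u v l (Sum.inr p) = (valR π u l p : ℤ) := rfl

theorem posR_cases {n : ℕ} (u p : Fin n) :
    ((p : ℕ) + 1 = n ∧ posR u p = 0) ∨ ((p : ℕ) + 2 = n ∧ posR u p = n + 2 * u + 1) ∨
      ((p : ℕ) + 2 < n ∧ posR u p = p + 1) := by
  have := p.2
  unfold posR
  split_ifs <;> omega

theorem valR_cases {n : ℕ} (π : Equiv.Perm (Fin n)) (u l p : Fin n) :
    ((π p : ℕ) + 1 < π l ∧ valR π u l p = π p) ∨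
    ((π p : ℕ) + 1 = π l ∧ valR π u l p = n + 4 * π u) ∨
    ((π p : ℕ) = π l ∧ valR π u l p = n + 4 * π u + 2) ∨
    ((π p : ℕ) = π l + 1 ∧ valR π u l p = n + 4 * π u + 3) ∨
    ((π l : ℕ) + 1 < π p ∧ valR π u l p = 6 * n + π p) := by
  unfold valR
  split_ifs <;> omega

theorem posA_inj {n : ℕ} (u v : Fin n) : Function.Injective (posA u v) := by
  intro a b hab
  have hu := u.2
  rcases a with s | p <;> rcases b with s' | p' <;> simp only [posA_inl, posA_inr, Nat.cast_inj] at hab
  · congr 1
    exact Subtype.ext (Fin.ext (by omega))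
  · have := posR_cases u p'; omega
  · have := posR_cases u p; omega
  · have := posR_cases u p
    have := posR_cases u p'
    congr 1
    exact Fin.ext (by omega)

theorem valA_inj {n : ℕ} (π : Equiv.Perm (Fin n)) (u v l : Fin n) :
    Function.Injective (valA π u v l) := by
  intro a b hab
  have hu := (π u).2
  have hl := (π l).2
  rcases a with s | p <;> rcases b with s' | p' <;> simp only [valA_inl, valA_inr, Nat.cast_inj] at hab
  · congr 1
    exact Subtype.ext (π.injective (Fin.ext (by omega)))
  · have := valR_cases π u l p'; have := (π s.1).2; omega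
  · have := valR_cases π u l p; have := (π s'.1).2; omega
  · have := valR_cases π u l p
    have := valR_cases π u l p'
    have := (π p).2
    have := (π p').2
    congr 1
    exact π.injective (Fin.ext (by omega))

theorem valR_lt {n : ℕ} (π : Equiv.Perm (Fin n)) (u l p q : Fin n) :
    valR π u l p < valR π u l q ↔ π p < π q := by
  have := valR_cases π u l p
  have := valR_cases π u l q
  have := (π p).2
  have := (π q).2
  have := (π u).2
  have := (π l).2
  rw [Fin.lt_def]
  omega

theorem posR_lt {n : ℕ} (u p q : Fin n) (hp : (p : ℕ) + 1 ≠ n) (hq : (q : ℕ) + 1 ≠ n) :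
    posR u p < posR u q ↔ p < q := by
  have := posR_cases u p
  have := posR_cases u q
  rw [Fin.lt_def]
  omega

theorem alpha_avoid {n : ℕ} (hn : 100 ≤ n) {π : Equiv.Perm (Fin n)} (h1 : T1 π) (h2 : T2 π)
    (h3 : T3 π) (h4 : T4 π) (u v l : Fin n) (hp : (v : ℕ) = u + 1 ∨ (u : ℕ) = v + 1)
    (hv : (π v : ℕ) = π u + 1) (hl : (l : ℕ) + 1 = n) :
    ¬ ∃ f, Emb π (posA u v) (valA π u v l) f := by
  classical
  rintro ⟨f, hf1, hf2⟩
  have hn0 : 0 < n := by omega
  have hu := u.2
  have hπu := (π u).2
  have hπl := (π l).2
  have hF1 : Function.Injective (fun q => posA u v (f q)) := by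
    intro i j hij
    rcases lt_trichotomy i j with h | h | h
    · exact absurd hij (hf1 i j h).ne
    · exact h
    · exact absurd hij (hf1 j i h).ne'
  have hF2 : Function.Injective (fun q => valA π u v l (f q)) := by
    intro i j hij
    rcases lt_trichotomy (π i) (π j) with h | h | h
    · exact absurd hij (hf2 i j h).ne
    · exact π.injective h
    · exact absurd hij (hf2 j i h).ne'
  have hf1' : ∀ i j, i ≤ j → posA u v (f i) ≤ posA u v (f j) := by
    intro i j hij
    rcases hij.lt_or_eq with h | h
    · exact (hf1 i j h).le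
    · rw [h]
  have hf2' : ∀ i j, π i ≤ π j → valA π u v l (f i) ≤ valA π u v l (f j) := by
    intro i j hij
    rcases hij.lt_or_eq with h | h
    · exact (hf2 i j h).le
    · rw [π.injective h]
  let A : Finset (Fin n) := univ.filter fun q => ∃ s, f q = Sum.inl s
  have hA : ∀ q, q ∈ A ↔ ∃ s, f q = Sum.inl s := by intro q; simp [A]
  have hA' : ∀ q, q ∉ A → ∃ p, f q = Sum.inr p := by
    intro q hq
    rw [hA] at hq
    rcases hfq : f q with s | p
    · exact absurd ⟨s, hfq⟩ hq
    · exact ⟨p, rfl⟩
  have hApos : ∀ q ∈ A, (n : ℤ) ≤ posA u v (f q) := by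
    intro q hq
    obtain ⟨s, hs⟩ := (hA q).1 hq
    rw [hs]; simp only [posA_inl, posA_inr]; omega
  have hAval : ∀ q ∈ A, (n : ℤ) < valA π u v l (f q) ∧ valA π u v l (f q) < 5 * n := by
    intro q hq
    obtain ⟨s, hs⟩ := (hA q).1 hq
    have := (π s.1).2
    rw [hs]; simp only [valA_inl, valA_inr]; omega
  obtain ⟨d, hd⟩ := exists_pre hn0 _ hF1 ((n + 2 * (u : ℕ) + 1 : ℕ) : ℤ)
  obtain ⟨d₁, hd₁⟩ := exists_pre hn0 _ hF2 ((n + 4 * (π u : ℕ) : ℕ) : ℤ)
  obtain ⟨d₂, hd₂⟩ := exists_pre hn0 _ hF2 ((n + 4 * (π u : ℕ) + 2 : ℕ) : ℤ)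
  obtain ⟨d₃, hd₃⟩ := exists_pre hn0 _ hF2 ((n + 4 * (π u : ℕ) + 3 : ℕ) : ℤ)
  have hbig : ∀ q, (n : ℤ) ≤ posA u v (f q) → q ∈ A ∨ q = d := by
    intro q hq
    by_cases hqA : q ∈ A
    · exact Or.inl hqA
    · right
      obtain ⟨p, hp⟩ := hA' q hqA
      apply hd
      have := posR_cases u p
      simp only [hp, posA_inl, posA_inr] at hq ⊢
      omega
  have hQ1 : QI 1 A := by
    refine ⟨d, d, d, fun q₁ q q₂ a _ c _ => ?_⟩
    have := hf1 q₁ q (by simpa using c)
    have := hApos q₁ a
    rcases hbig q (by omega) with h | h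
    · exact Or.inl h
    · exact Or.inr (Or.inl h)
  have hQ2 : QI π A := by
    refine ⟨d₁, d₂, d₃, fun q₁ q q₂ a b c e => ?_⟩
    have e1 := hf2 q₁ q c
    have e2 := hf2 q q₂ e
    have e3 := hAval q₁ a
    have e4 := hAval q₂ b
    by_cases hqA : q ∈ A
    · exact Or.inl hqA
    · right
      obtain ⟨p, hp⟩ := hA' q hqA
      have hc := valR_cases π u l p
      have := (π p).2
      have hval : valA π u v l (f q) = (valR π u l p : ℤ) := by rw [hp]; rfl
      rcases hc with hc | hc | hc | hc | hc
      · omega
      · left; apply hd₁; simp only [hval]; omega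
      · right; left; apply hd₂; simp only [hval]; omega
      · right; right; apply hd₃; simp only [hval]; omega
      · omega
  let g : Fin n → Fin n := fun q => Sum.elim (fun s => s.1) id (f q)
  have hcc : Aᶜ.card + A.card = n := by
    rw [Finset.card_compl, Fintype.card_fin]
    have := Finset.card_le_univ A
    rw [Fintype.card_fin] at this
    omega
  have hBl : Bd l := Or.inr (by omega)
  rcases h4 A hQ1 hQ2 with hs | hs
  · -- few points in the inner copy
    let A' : Finset (Fin n) := univ.filter fun q => ∃ p, f q = Sum.inr p ∧ p ≠ l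
    have hA2 : ∀ q, q ∈ A' ↔ ∃ p, f q = Sum.inr p ∧ p ≠ l := by intro q; simp [A']
    obtain ⟨d₀, hd₀⟩ := exists_pre hn0 _ hF1 0
    have hposl : posA u v (Sum.inr l) = 0 := by
      have := posR_cases u l
      simp only [posA_inl, posA_inr]; omega
    have hnonneg : ∀ a, 0 ≤ posA u v a := by
      intro a
      rcases a with s | p <;> simp only [posA_inl, posA_inr] <;> positivity
    have hout : ∀ q, q ∉ A' → q ∈ A ∨ f q = Sum.inr l := by
      intro q hq
      by_cases hqA : q ∈ A
      · exact Or.inl hqA
      · obtain ⟨p, hp⟩ := hA' q hqA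
        right
        rw [hA2] at hq
        push Not at hq
        rw [hp, hq p hp]
    have hzero : ∀ q, f q = Sum.inr l → (q : ℕ) = 0 := by
      intro q hq
      by_contra hne
      have := hf1 ⟨0, hn0⟩ q (Fin.lt_def.2 (by simp only; omega))
      rw [hq, hposl] at this
      exact absurd (hnonneg _) (not_le.2 this)
    have hcard : n ≤ A'.card + 12 := by
      have hsub : (univ : Finset (Fin n)) ⊆ A' ∪ insert d₀ A := by
        intro q _
        by_cases hq : q ∈ A'
        · simp [hq]
        · rcases hout q hq with h | h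
          · simp [h]
          · have := hd₀ q (by simp only [h, hposl])
            simp [this]
      have e1 := Finset.card_le_card hsub
      have e2 := Finset.card_union_le A' (insert d₀ A)
      have e3 := Finset.card_insert_le d₀ A
      rw [Finset.card_univ, Fintype.card_fin] at e1
      omega
    have hbdA : ∀ q ∈ A, n ≤ (q : ℕ) + 12 := by
      intro q hq
      have := card_le_upper 1 q (insert d A) (by
        intro z hz
        have e1 := hf1' q z (by simpa using hz)
        have e2 := hApos q hq
        rcases hbig z (by omega) with h | h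
        · simp [h]
        · simp [h])
      have e3 := Finset.card_insert_le d A
      simp only [Equiv.Perm.coe_one, id_eq] at this
      omega
    have hbd : ∀ q, q ∉ A' → (q : ℕ) = 0 ∨ n ≤ (q : ℕ) + 12 := by
      intro q hq
      rcases hout q hq with h | h
      · exact Or.inr (hbdA q h)
      · exact Or.inl (hzero q h)
    have hg : ∀ q p, f q = Sum.inr p → g q = p := by
      intro q p h
      simp only [g, h, Sum.elim_inr, id_eq]
    have hrig := rigid h1 h2 A' g hcard (by
        intro a ha b hb hab
        obtain ⟨p, hp, hpl⟩ := (hA2 a).1 ha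
        obtain ⟨p', hp', hpl'⟩ := (hA2 b).1 hb
        rw [hg a p hp, hg b p' hp']
        have := hf1 a b hab
        rw [hp, hp'] at this
        simp only [posA_inl, posA_inr, Nat.cast_lt] at this
        refine (posR_lt u p p' ?_ ?_).1 this
        · intro h; exact hpl (Fin.ext (by omega))
        · intro h; exact hpl' (Fin.ext (by omega)))
      (by
        intro a ha b hb hab
        obtain ⟨p, hp, _⟩ := (hA2 a).1 ha
        obtain ⟨p', hp', _⟩ := (hA2 b).1 hb
        rw [hg a p hp, hg b p' hp']
        have := hf2 a b hab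
        rw [hp, hp'] at this
        simp only [valA_inl, valA_inr, Nat.cast_lt] at this
        exact (valR_lt π u l p p').1 this)
      (by
        intro b hb
        rcases hbd b hb with h | h
        · left; omega
        · right; left; exact h)
    have hfix : ∀ q ∈ A', f q = Sum.inr q := by
      intro q hq
      obtain ⟨p, hp, _⟩ := (hA2 q).1 hq
      have := hrig q hq
      rw [hg q p hp] at this
      rw [hp, this]
    have hlA : l ∉ A' := by
      intro h
      obtain ⟨p, hp, hpl⟩ := (hA2 l).1 h
      rw [hfix l h] at hp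
      exact hpl (Sum.inr.inj hp).symm
    have hL := h3 l hBl
    unfold Bd at hL
    have hnear : ∀ q, q ≠ l → (π q : ℕ) ≤ π l + 12 → (π l : ℕ) ≤ π q + 12 → f q = Sum.inr q := by
      intro q hq e1 e2
      apply hfix
      by_contra hqA
      have hb : Bd q := by
        rcases hbd q hqA with h | h
        · left; omega
        · right; omega
      have := h1 q l hq hb hBl
      omega
    have hget : ∀ k : ℕ, k < n → k ≠ π l → k ≤ π l + 12 → (π l : ℕ) ≤ k + 12 →
        ∃ q, (π q : ℕ) = k ∧ f q = Sum.inr q := by
      intro k hk e0 e1 e2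
      refine ⟨π.symm ⟨k, hk⟩, by simp, hnear _ ?_ (by simpa using e1) (by simpa using e2)⟩
      intro h
      apply e0
      rw [← h]; simp
    obtain ⟨qa, hqa, hqa'⟩ := hget (π l - 1) (by omega) (by omega) (by omega) (by omega)
    obtain ⟨qb, hqb, hqb'⟩ := hget (π l + 1) (by omega) (by omega) (by omega) (by omega)
    obtain ⟨qc, hqc, hqc'⟩ := hget (π l - 2) (by omega) (by omega) (by omega) (by omega)
    obtain ⟨qd, hqd, hqd'⟩ := hget (π l + 2) (by omega) (by omega) (by omega) (by omega)
    have va := hf2 qa l (Fin.lt_def.2 (by omega))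
    have vb := hf2 l qb (Fin.lt_def.2 (by omega))
    rw [hqa'] at va
    rw [hqb'] at vb
    have ca := valR_cases π u l qa
    have cb := valR_cases π u l qb
    have cc := valR_cases π u l qc
    have cd := valR_cases π u l qd
    have hposfl : posA u v (f l) = ((n + 2 * (u : ℕ) : ℕ) : ℤ) := by
      rcases hout l hlA with h | h
      · obtain ⟨s, hs⟩ := (hA l).1 h
        rw [hs] at va vb ⊢
        simp only [valA_inl, valA_inr, Nat.cast_lt] at va vb
        have : s.1 = u := π.injective (Fin.ext (by omega))
        simp only [posA_inl, posA_inr, this]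
      · have := hzero l h
        omega
    let t : Fin n := ⟨n - 2, by omega⟩
    have ht : (t : ℕ) + 2 = n := by simp only [t]; omega
    have htl := hf1 t l (Fin.lt_def.2 (by omega))
    rw [hposfl] at htl
    by_cases htA : t ∈ A'
    · rw [hfix t htA] at htl
      have := posR_cases u t
      simp only [posA_inl, posA_inr, Nat.cast_lt] at htl
      omega
    · rcases hout t htA with h | h
      · have e := hAval t h
        rcases h1 t l (fun h => by have := congrArg Fin.val h; omega) (Or.inr (by omega)) hBl
          with h' | h'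
        · have := hf2 t qc (Fin.lt_def.2 (by omega))
          rw [hqc'] at this
          simp only [valA_inl, valA_inr] at this
          omega
        · have := hf2 qd t (Fin.lt_def.2 (by omega))
          rw [hqd'] at this
          simp only [valA_inl, valA_inr] at this
          omega
      · have := hzero t h
        omega
  · -- almost all points in the inner copy
    have hbd : ∀ b, b ∉ A →
        (b : ℕ) ≤ 12 ∨ n ≤ (b : ℕ) + 12 ∨ (π b : ℕ) ≤ 12 ∨ n ≤ (π b : ℕ) + 12 := by
      intro b hb
      obtain ⟨p, hp⟩ := hA' b hb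
      have cp := posR_cases u p
      by_cases hpt : (p : ℕ) + 2 = n
      · have cv := valR_cases π u l p
        have hπp := (π p).2
        rcases h1 p l (fun h => by have := congrArg Fin.val h; omega) (Or.inr (by omega)) hBl
          with h' | h'
        · have := card_le_lower π b Aᶜ (by
            intro z hz
            rw [mem_compl]
            intro hzA
            have e1 := hf2' z b hz
            have e2 := hAval z hzA
            rw [hp] at e1
            simp only [valA_inl, valA_inr] at e1 e2
            omega)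
          omega
        · have := card_le_upper π b Aᶜ (by
            intro z hz
            rw [mem_compl]
            intro hzA
            have e1 := hf2' b z hz
            have e2 := hAval z hzA
            rw [hp] at e1
            simp only [valA_inl, valA_inr] at e1 e2
            omega)
          omega
      · have := card_le_lower 1 b Aᶜ (by
          intro z hz
          rw [mem_compl]
          intro hzA
          have e1 := hf1' z b (by simpa using hz)
          have e2 := hApos z hzA
          rw [hp] at e1
          simp only [posA_inl, posA_inr] at e1 e2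
          omega)
        simp only [Equiv.Perm.coe_one, id_eq] at this
        omega
    have hg : ∀ q s, f q = Sum.inl s → g q = s.1 := by
      intro q s h
      simp only [g, h, Sum.elim_inl]
    have hrig := rigid h1 h2 A g (by omega) (by
        intro a ha b hb hab
        obtain ⟨s, hs⟩ := (hA a).1 ha
        obtain ⟨s', hs'⟩ := (hA b).1 hb
        rw [hg a s hs, hg b s' hs']
        have := hf1 a b hab
        rw [hs, hs'] at this
        simp only [posA_inl, posA_inr, Nat.cast_lt] at this
        exact Fin.lt_def.2 (by omega))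
      (by
        intro a ha b hb hab
        obtain ⟨s, hs⟩ := (hA a).1 ha
        obtain ⟨s', hs'⟩ := (hA b).1 hb
        rw [hg a s hs, hg b s' hs']
        have := hf2 a b hab
        rw [hs, hs'] at this
        simp only [valA_inl, valA_inr, Nat.cast_lt] at this
        exact Fin.lt_def.2 (by omega))
      hbd
    have hvA : v ∈ A := by
      by_contra hvA
      refine isolated h1 h2 v u (hbd v hvA) (fun h => ?_) ?_ ?_ ?_ ?_
      · have := congrArg Fin.val h; omega
      all_goals omega
    obtain ⟨s, hs⟩ := (hA v).1 hvA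
    have := hrig v hvA
    rw [hg v s hs] at this
    exact s.2 this

end Pool.Agent.Lib.MP_d28c7d_co
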