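import Pool.Agent.Lib.MP_d28c7d_co.Defs

set_option autoImplicit false

namespace Pool.Agent.Lib.MP_d28c7d_co

open Finset

/-- Embedding of a pattern into a planar point configuration. -/
def Emb {n : ℕ} (π : Equiv.Perm (Fin n)) {κ : Type} (x y : κ → ℤ) (f : Fin n → κ) : Prop :=
  (∀ i j, i < j → x (f i) < x (f j)) ∧ (∀ i j, π i < π j → y (f i) < y (f j))

/-- Embedding of a configuration into another one. -/
def CEmb {ι κ : Type} (x y : ι → ℤ) (x' y' : κ → ℤ) (g : ι → κ) : Prop :=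
  (∀ a b, x a < x b → x' (g a) < x' (g b)) ∧ (∀ a b, y a < y b → y' (g a) < y' (g b))

def px (τ : FinPerm) : Fin τ.1 → ℤ := fun i => ((i : ℕ) : ℤ)
def py (τ : FinPerm) : Fin τ.1 → ℤ := fun i => ((τ.2 i : ℕ) : ℤ)

theorem px_lt (τ : FinPerm) (i j : Fin τ.1) : px τ i < px τ j ↔ i < j := by
  simp [px]

theorem py_lt (τ : FinPerm) (i j : Fin τ.1) : py τ i < py τ j ↔ τ.2 i < τ.2 j := by
  simp [py]

theorem px_inj (τ : FinPerm) : Function.Injective (px τ) := by
  intro i j h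
  simp only [px] at h
  exact Fin.ext (by exact_mod_cast h)

theorem py_inj (τ : FinPerm) : Function.Injective (py τ) := by
  intro i j h
  simp only [py] at h
  exact τ.2.injective (Fin.ext (by exact_mod_cast h))

theorem isCopy_iff (π τ : FinPerm) (f : Fin π.1 → Fin τ.1) :
    IsCopy π τ f ↔ Emb π.2 (px τ) (py τ) f := by
  constructor
  · rintro ⟨h1, h2⟩
    exact ⟨fun i j h => (px_lt τ _ _).2 (h1 h), fun i j h => (py_lt τ _ _).2 ((h2 i j).1 h)⟩
  · rintro ⟨h1, h2⟩
    refine ⟨fun i j h => (px_lt τ _ _).1 (h1 i j h), fun i j => ⟨fun h => (py_lt τ _ _).1 (h2 i j h), fun h => ?_⟩⟩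
    rcases lt_trichotomy (π.2 i) (π.2 j) with h' | h' | h'
    · exact h'
    · have := π.2.injective h'
      subst this
      exact absurd h (lt_irrefl _)
    · exact absurd ((py_lt τ _ _).1 (h2 j i h')) (not_lt.2 h.le)

theorem exists_rank {ι : Type} [Fintype ι] (x : ι → ℤ) (hx : Function.Injective x) :
    ∃ e : ι ≃ Fin (Fintype.card ι), ∀ a b, x a < x b ↔ e a < e b := by
  classical
  let : LinearOrder ι := LinearOrder.lift' x hx
  refine ⟨(monoEquivOfFin ι rfl).symm.toEquiv, fun a b => ?_⟩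
  have : (monoEquivOfFin ι rfl).symm a < (monoEquivOfFin ι rfl).symm b ↔ a < b :=
    OrderIso.lt_iff_lt _
  exact this.symm

theorem exists_perm {ι : Type} [Fintype ι] (x y : ι → ℤ) (hx : Function.Injective x)
    (hy : Function.Injective y) :
    ∃ τ : FinPerm, ∃ e : ι ≃ Fin τ.1, (∀ a b, x a < x b ↔ px τ (e a) < px τ (e b)) ∧
      (∀ a b, y a < y b ↔ py τ (e a) < py τ (e b)) := by
  obtain ⟨ex, hex⟩ := exists_rank x hx
  obtain ⟨ey, hey⟩ := exists_rank y hy
  refine ⟨⟨Fintype.card ι, ex.symm.trans ey⟩, ex, fun a b => ?_, fun a b => ?_⟩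
  · rw [px_lt]; exact hex a b
  · rw [py_lt]; simpa using hey a b

theorem mem_Av (π τ : FinPerm) : τ ∈ Av π ↔ ¬ ∃ f, Emb π.2 (px τ) (py τ) f := by
  simp only [Av, Set.mem_ofPred_eq, isCopy_iff]

/-- Splitting criterion: failure of one-point amalgamation. -/
theorem not_unsplittable {n : ℕ} (π : Equiv.Perm (Fin n)) {ι₁ ι₂ : Type} [Fintype ι₁] [Fintype ι₂]
    (x₁ y₁ : ι₁ → ℤ) (x₂ y₂ : ι₂ → ℤ) (hx₁ : Function.Injective x₁) (hy₁ : Function.Injective y₁)
    (hx₂ : Function.Injective x₂) (hy₂ : Function.Injective y₂) (a₁ : ι₁) (a₂ : ι₂)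
    (h₁ : ¬ ∃ f, Emb π x₁ y₁ f) (h₂ : ¬ ∃ f, Emb π x₂ y₂ f)
    (h : ∀ τ : FinPerm, (¬ ∃ f, Emb π (px τ) (py τ) f) → ∀ g₁ g₂,
      CEmb x₁ y₁ (px τ) (py τ) g₁ → CEmb x₂ y₂ (px τ) (py τ) g₂ → g₁ a₁ = g₂ a₂ → False) :
    ¬ Unsplittable (Av ⟨n, π⟩) := by
  obtain ⟨α, e₁, he₁, he₁'⟩ := exists_perm x₁ y₁ hx₁ hy₁
  obtain ⟨β, e₂, he₂, he₂'⟩ := exists_perm x₂ y₂ hx₂ hy₂
  have hα : α ∈ Av ⟨n, π⟩ := by
    rw [mem_Av]
    rintro ⟨f, hf1, hf2⟩
    refine h₁ ⟨fun i => e₁.symm (f i), fun i j hij => ?_, fun i j hij => ?_⟩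
    · rw [he₁]; simpa using hf1 i j hij
    · rw [he₁']; simpa using hf2 i j hij
  have hβ : β ∈ Av ⟨n, π⟩ := by
    rw [mem_Av]
    rintro ⟨f, hf1, hf2⟩
    refine h₂ ⟨fun i => e₂.symm (f i), fun i j hij => ?_, fun i j hij => ?_⟩
    · rw [he₂]; simpa using hf1 i j hij
    · rw [he₂']; simpa using hf2 i j hij
  intro hU
  obtain ⟨τ, hτ, hcol⟩ := hU β hβ α hα
  rw [mem_Av] at hτ
  rcases hcol {z | ∃ g₁, CEmb x₁ y₁ (px τ) (py τ) g₁ ∧ g₁ a₁ = z} with ⟨f, hf, hr⟩ | ⟨f, hf, hb⟩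
  · rw [isCopy_iff] at hf
    obtain ⟨g₁, hg₁, hg₁'⟩ := hr (e₂ a₂)
    refine h τ hτ g₁ (fun a => f (e₂ a)) hg₁ ⟨fun a b hab => ?_, fun a b hab => ?_⟩ hg₁'
    · exact hf.1 _ _ ((px_lt β _ _).1 ((he₂ a b).1 hab))
    · exact hf.2 _ _ ((py_lt β _ _).1 ((he₂' a b).1 hab))
  · rw [isCopy_iff] at hf
    refine hb (e₁ a₁) ⟨fun a => f (e₁ a), ⟨fun a b hab => ?_, fun a b hab => ?_⟩, rfl⟩
    · exact hf.1 _ _ ((px_lt α _ _).1 ((he₁ a b).1 hab))
    · exact hf.2 _ _ ((py_lt α _ _).1 ((he₁' a b).1 hab))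

theorem lex_lt {m i i' j j' : ℕ} (hj : j < m) (hj' : j' < m) :
    ((i : ℤ) * m + j < i' * m + j') ↔ (i < i' ∨ (i = i' ∧ j < j')) := by
  have key : ∀ a b c d : ℕ, c < m → d < m → a < b → (a : ℤ) * m + c < b * m + d := by
    intro a b c d hc hd hab
    have h1 : ((a : ℤ) + 1) * m ≤ b * m := by
      apply mul_le_mul_of_nonneg_right
      · exact_mod_cast hab
      · positivity
    have h2 : (c : ℤ) < m := by exact_mod_cast hc
    have h3 : (0 : ℤ) ≤ d := by positivity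
    nlinarith
  constructor
  · intro h
    rcases lt_trichotomy i i' with h' | h' | h'
    · exact Or.inl h'
    · subst h'
      right
      refine ⟨rfl, ?_⟩
      have : (j : ℤ) < j' := by linarith
      exact_mod_cast this
    · have := key i' i j' j hj' hj h'
      linarith
  · rintro (h | ⟨h, h'⟩)
    · exact key i i' j j' hj hj' h
    · subst h
      have : (j : ℤ) < j' := by exact_mod_cast h'
      linarith

/-- `A` is convex for the ordering given by `φ`. -/
def Conv {n : ℕ} (φ : Equiv.Perm (Fin n)) (A : Finset (Fin n)) : Prop :=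
  ∀ q₁ q q₂, q₁ ∈ A → q₂ ∈ A → φ q₁ < φ q → φ q < φ q₂ → q ∈ A

/-- Simple permutations. -/
def Simple {n : ℕ} (π : Equiv.Perm (Fin n)) : Prop :=
  ∀ A : Finset (Fin n), Conv 1 A → Conv π A → A.card ≤ 1 ∨ A = univ

theorem unsplittable_of_simple {n : ℕ} (π : Equiv.Perm (Fin n)) (hπ : Simple π) :
    Unsplittable (Av ⟨n, π⟩) := by
  classical
  intro σ hσ ρ hρ
  rw [mem_Av] at hσ hρ
  let x : Fin σ.1 × Fin ρ.1 → ℤ := fun a => ((a.1 : ℕ) : ℤ) * ρ.1 + ((a.2 : ℕ) : ℤ)
  let y : Fin σ.1 × Fin ρ.1 → ℤ := fun a => ((σ.2 a.1 : ℕ) : ℤ) * ρ.1 + ((ρ.2 a.2 : ℕ) : ℤ)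
  have hxl : ∀ a b, x a < x b ↔ (a.1 < b.1 ∨ (a.1 = b.1 ∧ a.2 < b.2)) := by
    intro a b
    simp only [x]
    rw [lex_lt a.2.2 b.2.2]
    simp only [Fin.lt_def, Fin.ext_iff]
  have hyl : ∀ a b, y a < y b ↔ (σ.2 a.1 < σ.2 b.1 ∨ (a.1 = b.1 ∧ ρ.2 a.2 < ρ.2 b.2)) := by
    intro a b
    simp only [y]
    rw [lex_lt (ρ.2 a.2).2 (ρ.2 b.2).2]
    simp only [Fin.lt_def, ← Fin.ext_iff, EmbeddingLike.apply_eq_iff_eq]
  have hx : Function.Injective x := by
    intro a b hab
    have h1 : ¬ x a < x b := by rw [hab]; exact lt_irrefl _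
    have h2 : ¬ x b < x a := by rw [hab]; exact lt_irrefl _
    rw [hxl] at h1 h2
    push Not at h1 h2
    have h3 : a.1 = b.1 := le_antisymm h2.1 h1.1
    exact Prod.ext h3 (le_antisymm (h2.2 h3.symm) (h1.2 h3))
  have hy : Function.Injective y := by
    intro a b hab
    have h1 : ¬ y a < y b := by rw [hab]; exact lt_irrefl _
    have h2 : ¬ y b < y a := by rw [hab]; exact lt_irrefl _
    rw [hyl] at h1 h2
    push Not at h1 h2
    have h3 : a.1 = b.1 := σ.2.injective (le_antisymm h2.1 h1.1)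
    exact Prod.ext h3 (ρ.2.injective (le_antisymm (h2.2 h3.symm) (h1.2 h3)))
  obtain ⟨τ, e, he, he'⟩ := exists_perm x y hx hy
  refine ⟨τ, ?_, fun red => ?_⟩
  · rw [mem_Av]
    rintro ⟨f, hf1, hf2⟩
    let g : Fin n → Fin σ.1 × Fin ρ.1 := fun i => e.symm (f i)
    have hg1 : ∀ i j, i < j → (g i).1 < (g j).1 ∨ ((g i).1 = (g j).1 ∧ (g i).2 < (g j).2) := by
      intro i j hij
      rw [← hxl, he]
      simpa [g] using hf1 i j hij
    have hg2 : ∀ i j, π i < π j →
        σ.2 (g i).1 < σ.2 (g j).1 ∨ ((g i).1 = (g j).1 ∧ ρ.2 (g i).2 < ρ.2 (g j).2) := by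
      intro i j hij
      rw [← hyl, he']
      simpa [g] using hf2 i j hij
    by_cases hall : ∀ i j, (g i).1 = (g j).1 → i = j
    · refine hσ ⟨fun i => (g i).1, fun i j hij => ?_, fun i j hij => ?_⟩
      · rw [px_lt]
        rcases hg1 i j hij with h | h
        · exact h
        · exact absurd (hall i j h.1) hij.ne
      · rw [py_lt]
        rcases hg2 i j hij with h | h
        · exact h
        · have := hall i j h.1
          subst this
          exact absurd hij (lt_irrefl _)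
    · push Not at hall
      obtain ⟨i₀, j₀, hij₀, hne⟩ := hall
      have hA := hπ (univ.filter fun q => (g q).1 = (g i₀).1) ?_ ?_
      · rcases hA with hA | hA
        · rw [Finset.card_le_one] at hA
          exact hne (hA i₀ (by simp) j₀ (by simp [hij₀]))
        · have hc : ∀ q, (g q).1 = (g i₀).1 := by
            intro q
            have : q ∈ (univ.filter fun q => (g q).1 = (g i₀).1) := by rw [hA]; exact mem_univ _
            simpa using this
          refine hρ ⟨fun i => (g i).2, fun i j hij => ?_, fun i j hij => ?_⟩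
          · rw [px_lt]
            rcases hg1 i j hij with h | h
            · rw [hc i, hc j] at h; exact absurd h (lt_irrefl _)
            · exact h.2
          · rw [py_lt]
            rcases hg2 i j hij with h | h
            · rw [hc i, hc j] at h; exact absurd h (lt_irrefl _)
            · exact h.2
      · intro q₁ q q₂ h1 h2 h3 h4
        simp only [mem_filter, mem_univ, true_and, Equiv.Perm.coe_one, id_eq] at h1 h2 h3 h4 ⊢
        have a1 : (g q₁).1 ≤ (g q).1 := by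
          rcases hg1 _ _ h3 with h | h
          · exact h.le
          · exact h.1.le
        have a2 : (g q).1 ≤ (g q₂).1 := by
          rcases hg1 _ _ h4 with h | h
          · exact h.le
          · exact h.1.le
        rw [h1] at a1; rw [h2] at a2
        exact le_antisymm a2 a1
      · intro q₁ q q₂ h1 h2 h3 h4
        simp only [mem_filter, mem_univ, true_and] at h1 h2 h3 h4 ⊢
        have a1 : σ.2 (g q₁).1 ≤ σ.2 (g q).1 := by
          rcases hg2 _ _ h3 with h | h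
          · exact h.le
          · rw [h.1]
        have a2 : σ.2 (g q).1 ≤ σ.2 (g q₂).1 := by
          rcases hg2 _ _ h4 with h | h
          · exact h.le
          · rw [h.1]
        rw [h1] at a1; rw [h2] at a2
        exact σ.2.injective (le_antisymm a2 a1)
  · by_cases hr : ∀ i : Fin σ.1, ∃ j : Fin ρ.1, e (i, j) ∈ red
    · choose s hs using hr
      left
      refine ⟨fun i => e (i, s i), ?_, hs⟩
      rw [isCopy_iff]
      refine ⟨fun i j hij => ?_, fun i j hij => ?_⟩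
      · rw [← he, hxl]; exact Or.inl hij
      · rw [← he', hyl]; exact Or.inl hij
    · push Not at hr
      obtain ⟨i, hi⟩ := hr
      right
      refine ⟨fun j => e (i, j), ?_, hi⟩
      rw [isCopy_iff]
      refine ⟨fun a b hab => ?_, fun a b hab => ?_⟩
      · rw [← he, hxl]; exact Or.inr ⟨rfl, hab⟩
      · rw [← he', hyl]; exact Or.inr ⟨rfl, hab⟩

end Pool.Agent.Lib.MP_d28c7d_co
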