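import Pool.Agent.Lib.MP_d28c7d_co.Typical

set_option autoImplicit false

namespace Pool.Agent.Lib.MP_d28c7d_co

open Finset Filter Topology

open Classical in
/-- Number of permutations with a property. -/
noncomputable def cnt {n : ℕ} (P : Equiv.Perm (Fin n) → Prop) : ℕ := (univ.filter P).card

theorem cnt_mono {n : ℕ} {P Q : Equiv.Perm (Fin n) → Prop} (h : ∀ π, P π → Q π) :
    cnt P ≤ cnt Q := by
  classical
  unfold cnt
  apply Finset.card_le_card
  intro π hπ
  simp only [mem_filter, mem_univ, true_and] at hπ ⊢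
  exact h π hπ

theorem cnt_or {n : ℕ} (P Q : Equiv.Perm (Fin n) → Prop) :
    cnt (fun π => P π ∨ Q π) ≤ cnt P + cnt Q := by
  classical
  unfold cnt
  refine le_trans (Finset.card_le_card ?_) (Finset.card_union_le _ _)
  intro π hπ
  simpa using hπ

theorem fiber_bound {n : ℕ} (P V : Finset (Fin n)) :
    cnt (fun π => P.map π.toEmbedding = V) * n.choose P.card ≤ n.factorial := by
  classical
  by_cases hc : V.card = P.card
  · have h1 : (univ : Finset (Equiv.Perm (Fin n))).card =
        ∑ V' ∈ powersetCard P.card (univ : Finset (Fin n)),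
          (univ.filter fun π : Equiv.Perm (Fin n) => P.map π.toEmbedding = V').card := by
      apply Finset.card_eq_sum_card_fiberwise
      intro π _
      simp [mem_powersetCard]
    rw [Finset.card_univ, Fintype.card_perm, Fintype.card_fin] at h1
    have h2 : ∀ V' ∈ powersetCard P.card (univ : Finset (Fin n)),
        cnt (fun π => P.map π.toEmbedding = V) ≤
          (univ.filter fun π : Equiv.Perm (Fin n) => P.map π.toEmbedding = V').card := by
      intro V' hV'
      rw [mem_powersetCard] at hV'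
      obtain ⟨σ, hσ⟩ := Equiv.Perm.exists_map_finset_eq V V' (hc.trans hV'.2.symm)
      unfold cnt
      refine Finset.card_le_card_of_injOn (fun π => π.trans σ) (fun π hπ => ?_) ?_
      · simp only [coe_filter, mem_univ, true_and, Set.mem_ofPred_eq] at hπ ⊢
        rw [← hσ, ← hπ, Finset.map_map]
        rfl
      · intro a _ b _ hab
        ext i
        have := congrArg (fun e : Equiv.Perm (Fin n) => e i) hab
        simp only [Equiv.trans_apply, EmbeddingLike.apply_eq_iff_eq] at this
        rw [this]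
    have h3 := Finset.card_nsmul_le_sum _ _ _ h2
    rw [Finset.card_powersetCard, Finset.card_univ, Fintype.card_fin, smul_eq_mul] at h3
    rw [h1, mul_comm]
    exact h3
  · have : cnt (fun π => P.map π.toEmbedding = V) = 0 := by
      unfold cnt
      rw [Finset.card_eq_zero, Finset.eq_empty_iff_forall_notMem]
      intro π h
      simp only [mem_filter, mem_univ, true_and] at h
      apply hc
      rw [← h, Finset.card_map]
    rw [this]; simp

theorem union_bound {n : ℕ} {θ : Type} (Θ : Finset θ) (P V : θ → Finset (Fin n)) (B : ℕ)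
    (hB : ∀ t ∈ Θ, B ≤ n.choose (P t).card) (E : Equiv.Perm (Fin n) → Prop)
    (hE : ∀ π, E π → ∃ t ∈ Θ, (P t).map π.toEmbedding = V t) :
    cnt E * B ≤ Θ.card * n.factorial := by
  classical
  have h1 : cnt E ≤ ∑ t ∈ Θ, cnt (fun π => (P t).map π.toEmbedding = V t) := by
    unfold cnt
    refine le_trans (Finset.card_le_card ?_) Finset.card_biUnion_le
    intro π hπ
    simp only [mem_filter, mem_univ, true_and] at hπ
    obtain ⟨t, ht, h⟩ := hE π hπ
    simp only [mem_biUnion, mem_filter, mem_univ, true_and]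
    exact ⟨t, ht, h⟩
  calc cnt E * B ≤ (∑ t ∈ Θ, cnt (fun π => (P t).map π.toEmbedding = V t)) * B :=
        Nat.mul_le_mul_right _ h1
    _ = ∑ t ∈ Θ, cnt (fun π => (P t).map π.toEmbedding = V t) * B := Finset.sum_mul _ _ _
    _ ≤ ∑ _t ∈ Θ, n.factorial := by
        refine Finset.sum_le_sum fun t ht => ?_
        exact le_trans (Nat.mul_le_mul_left _ (hB t ht)) (fiber_bound _ _)
    _ = Θ.card * n.factorial := by simp

open Classical in
noncomputable def BdS (n : ℕ) : Finset (Fin n) := univ.filter Bd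

theorem mem_BdS {n : ℕ} (p : Fin n) : p ∈ BdS n ↔ Bd p := by simp [BdS]

theorem card_BdS (n : ℕ) : (BdS n).card ≤ 60 := by
  have : (BdS n).card ≤ (Finset.range 60).card := by
    refine Finset.card_le_card_of_injOn
      (fun p => if (p : ℕ) < 30 then (p : ℕ) else 30 + (n - 1 - p)) (fun p hp => ?_) ?_
    · rw [mem_coe, mem_BdS] at hp
      unfold Bd at hp
      simp only [coe_range, Set.mem_Iio]
      have := p.2
      split_ifs <;> omega
    · intro p _ q _ h
      have := p.2
      have := q.2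
      apply Fin.ext
      simp only at h
      split_ifs at h <;> omega
  simpa using this

def Near {n : ℕ} (a : Fin n) : Finset (Fin n) :=
  univ.filter fun b => (a : ℕ) ≤ b + 12 ∧ (b : ℕ) ≤ a + 12

theorem card_Near {n : ℕ} (a : Fin n) : (Near a).card ≤ 25 := by
  have : (Near a).card ≤ (Finset.range 25).card := by
    refine Finset.card_le_card_of_injOn (fun b => (b : ℕ) + 12 - a) (fun p hp => ?_) ?_
    · simp only [Near, coe_filter, mem_univ, true_and, Set.mem_ofPred_eq] at hp
      simp only [coe_range, Set.mem_Iio]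
      omega
    · intro p hp q hq h
      simp only [Near, coe_filter, mem_univ, true_and, Set.mem_ofPred_eq] at hp hq
      apply Fin.ext
      simp only at h
      omega
  simpa using this

theorem bad1 (n : ℕ) :
    cnt (fun π : Equiv.Perm (Fin n) => ¬ T1 π) * n.choose 2 ≤ 90000 * (n + 1) ^ 1 * n.factorial := by
  classical
  have := union_bound (n := n)
    (((BdS n ×ˢ BdS n).filter fun t => t.1 ≠ t.2) ×ˢ (univ.sigma fun a : Fin n => Near a))
    (fun t => {t.1.1, t.1.2}) (fun t => {t.2.1, t.2.2}) (n.choose 2) ?_ (fun π => ¬ T1 π) ?_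
  · refine this.trans (Nat.mul_le_mul_right _ ?_)
    rw [Finset.card_product, Finset.card_sigma]
    have e1 : ((BdS n ×ˢ BdS n).filter fun t => t.1 ≠ t.2).card ≤ 60 * 60 := by
      refine (Finset.card_filter_le _ _).trans ?_
      rw [Finset.card_product]
      exact Nat.mul_le_mul (card_BdS n) (card_BdS n)
    have e2 : ∑ a : Fin n, (Near a).card ≤ n * 25 := by
      have := Finset.sum_le_card_nsmul (univ : Finset (Fin n)) (fun a => (Near a).card) 25
        (fun a _ => card_Near a)
      simpa using this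
    calc _ ≤ (60 * 60) * (n * 25) := Nat.mul_le_mul e1 e2
      _ ≤ 90000 * (n + 1) ^ 1 := by nlinarith
  · intro t ht
    simp only [mem_product, mem_filter] at ht
    rw [Finset.card_pair ht.1.2]
  · intro π hπ
    unfold T1 at hπ
    push Not at hπ
    obtain ⟨p, q, hpq, hp, hq, h1, h2⟩ := hπ
    refine ⟨((p, q), ⟨π p, π q⟩), ?_, ?_⟩
    · simp only [mem_product, mem_filter, mem_BdS, mem_sigma, mem_univ, true_and, Near]
      exact ⟨⟨⟨hp, hq⟩, hpq⟩, h2, h1⟩
    · simp

theorem bad2 (n : ℕ) :
    cnt (fun π : Equiv.Perm (Fin n) => ¬ T2 π) * n.choose 2 ≤ 90000 * (n + 1) ^ 1 * n.factorial := by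
  classical
  refine le_trans (Nat.mul_le_mul_right _ ?_) (bad1 n)
  unfold cnt
  refine Finset.card_le_card_of_injOn (fun π => π.symm) (fun π hπ => ?_) ?_
  · simp only [coe_filter, mem_univ, true_and, Set.mem_ofPred_eq] at hπ ⊢
    intro h
    apply hπ
    intro p q hpq hp hq
    have := h (π p) (π q) (fun h' => hpq (π.injective h')) hp hq
    simpa using this
  · intro a _ b _ hab
    exact Equiv.symm_bijective.injective hab

theorem bad3 (n : ℕ) :
    cnt (fun π : Equiv.Perm (Fin n) => ¬ T3 π) * n.choose 1 ≤ 3600 * (n + 1) ^ 0 * n.factorial := by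
  classical
  have := union_bound (n := n) (BdS n ×ˢ BdS n)
    (fun t => {t.1}) (fun t => {t.2}) (n.choose 1) ?_ (fun π => ¬ T3 π) ?_
  · refine this.trans (Nat.mul_le_mul_right _ ?_)
    rw [Finset.card_product]
    simpa using Nat.mul_le_mul (card_BdS n) (card_BdS n)
  · intro t _
    simp
  · intro π hπ
    unfold T3 at hπ
    push Not at hπ
    obtain ⟨p, hp, hq⟩ := hπ
    refine ⟨(p, π p), ?_, ?_⟩
    · simp only [mem_product, mem_BdS]
      exact ⟨hp, hq⟩
    · simp

theorem bad5 (n : ℕ) :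
    cnt (fun π : Equiv.Perm (Fin n) => ¬ T5 π) * n.choose 3 ≤ 625 * (n + 1) ^ 2 * n.factorial := by
  classical
  have := union_bound (n := n)
    (((univ : Finset (Fin n × Fin n × Fin n)).filter
      fun t => (t.2.1 : ℕ) = t.1 + 1 ∧ (t.2.2 : ℕ) = t.1 + 2) ×ˢ
      (univ.sigma fun a : Fin n => Near a ×ˢ Near a))
    (fun t => {t.1.1, t.1.2.1, t.1.2.2}) (fun t => {t.2.1, t.2.2.1, t.2.2.2}) (n.choose 3) ?_
      (fun π => ¬ T5 π) ?_
  · refine this.trans (Nat.mul_le_mul_right _ ?_)
    rw [Finset.card_product, Finset.card_sigma]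
    have e1 : ((univ : Finset (Fin n × Fin n × Fin n)).filter
        fun t => (t.2.1 : ℕ) = t.1 + 1 ∧ (t.2.2 : ℕ) = t.1 + 2).card ≤ n := by
      have : ((univ : Finset (Fin n × Fin n × Fin n)).filter
          fun t => (t.2.1 : ℕ) = t.1 + 1 ∧ (t.2.2 : ℕ) = t.1 + 2).card ≤
            (univ : Finset (Fin n)).card := by
        refine Finset.card_le_card_of_injOn (fun t => t.1) (fun t _ => by simp) ?_
        rintro ⟨a, b, c⟩ h ⟨a', b', c'⟩ h' hh
        simp only [coe_filter, mem_univ, true_and, Set.mem_ofPred_eq] at h h' hh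
        subst hh
        refine Prod.ext rfl (Prod.ext (Fin.ext ?_) (Fin.ext ?_)) <;> simp only <;> omega
      simpa using this
    have e2 : ∑ a : Fin n, (Near a ×ˢ Near a).card ≤ n * 625 := by
      have := Finset.sum_le_card_nsmul (univ : Finset (Fin n))
        (fun a => (Near a ×ˢ Near a).card) 625
        (fun a _ => by
          rw [Finset.card_product]
          exact Nat.mul_le_mul (card_Near a) (card_Near a))
      simpa using this
    calc _ ≤ n * (n * 625) := Nat.mul_le_mul e1 e2
      _ ≤ 625 * (n + 1) ^ 2 := by nlinarith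
  · intro t ht
    simp only [mem_product, mem_filter] at ht
    rw [Finset.card_eq_three.2 ⟨_, _, _, ?_, ?_, ?_, rfl⟩]
    all_goals
      intro h
      have := congrArg Fin.val h
      omega
  · intro π hπ
    unfold T5 at hπ
    push Not at hπ
    obtain ⟨p, q, r, hq, hr, h1, h2, h3, h4⟩ := hπ
    refine ⟨((p, q, r), ⟨π p, π q, π r⟩), ?_, ?_⟩
    · simp only [mem_product, mem_filter, mem_sigma, mem_univ, true_and, Near]
      exact ⟨⟨hq, hr⟩, ⟨h2, h1⟩, h4, h3⟩
    · simp

/-- Parametrisation of sets that are convex up to three holes. -/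
def famSet {n : ℕ} (t : Fin n × Fin n × Option (Fin n) × Option (Fin n) × Option (Fin n)) :
    Finset (Fin n) :=
  univ.filter fun q => t.1 ≤ q ∧ q ≤ t.2.1 ∧ some q ≠ t.2.2.1 ∧ some q ≠ t.2.2.2.1 ∧
    some q ≠ t.2.2.2.2

theorem exists_famSet {n : ℕ} (A : Finset (Fin n)) (hne : A.Nonempty) (hA : QI 1 A) :
    ∃ t, famSet t = A := by
  classical
  obtain ⟨d₁, d₂, d₃, hd⟩ := hA
  obtain ⟨a, ha, hmin⟩ := Finset.exists_min_image A id hne
  obtain ⟨b, hb, hmax⟩ := Finset.exists_max_image A id hne
  refine ⟨(a, b, if d₁ ∈ A then none else some d₁, if d₂ ∈ A then none else some d₂,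
    if d₃ ∈ A then none else some d₃), ?_⟩
  ext q
  simp only [famSet, mem_filter, mem_univ, true_and]
  constructor
  · rintro ⟨h1, h2, h3, h4, h5⟩
    rcases h1.lt_or_eq with h1 | h1
    · rcases h2.lt_or_eq with h2 | h2
      · rcases hd a q b ha hb (by simpa using h1) (by simpa using h2) with h | h | h | h
        · exact h
        · subst h; by_contra hh; simp [hh] at h3
        · subst h; by_contra hh; simp [hh] at h4
        · subst h; by_contra hh; simp [hh] at h5
      · rw [h2]; exact hb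
    · rw [← h1]; exact ha
  · intro hq
    refine ⟨hmin q hq, hmax q hq, ?_, ?_, ?_⟩
    all_goals
      split_ifs with h
      · simp
      · intro hh
        exact h (Option.some.inj hh ▸ hq)

theorem choose_mono_left {n a b : ℕ} (hab : a ≤ b) (hb : b ≤ n / 2) : n.choose a ≤ n.choose b := by
  induction b, hab using Nat.le_induction with
  | base => exact le_rfl
  | succ k _ ih => exact (ih (by omega)).trans (Nat.choose_le_succ_of_lt_half_left (by omega))

theorem choose_le_mid {n c m : ℕ} (h1 : c ≤ m) (h2 : m + c ≤ n) : n.choose c ≤ n.choose m := by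
  by_cases h : m ≤ n / 2
  · exact choose_mono_left h1 h
  · rw [← Nat.choose_symm (show m ≤ n by omega)]
    exact choose_mono_left (by omega) (by omega)

theorem bad4 (n : ℕ) :
    cnt (fun π : Equiv.Perm (Fin n) => ¬ T4 π) * n.choose 11 ≤ 1 * (n + 1) ^ 10 * n.factorial := by
  classical
  have := union_bound (n := n)
    (((univ : Finset (Fin n × Fin n × Option (Fin n) × Option (Fin n) × Option (Fin n))).filter
      fun t => 11 ≤ (famSet t).card ∧ (famSet t).card + 11 ≤ n) ×ˢ
      (univ : Finset (Fin n × Fin n × Option (Fin n) × Option (Fin n) × Option (Fin n))))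
    (fun t => famSet t.1) (fun t => famSet t.2) (n.choose 11) ?_ (fun π => ¬ T4 π) ?_
  · refine this.trans (Nat.mul_le_mul_right _ ?_)
    rw [Finset.card_product]
    have e : (univ : Finset (Fin n × Fin n × Option (Fin n) × Option (Fin n) × Option (Fin n))).card
        ≤ (n + 1) ^ 5 := by
      simp only [card_univ, Fintype.card_prod, Fintype.card_fin, Fintype.card_option]
      calc n * (n * ((n + 1) * ((n + 1) * (n + 1)))) ≤
            (n + 1) * ((n + 1) * ((n + 1) * ((n + 1) * (n + 1)))) := by gcongr <;> omega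
        _ = (n + 1) ^ 5 := by ring
    calc _ ≤ (n + 1) ^ 5 * (n + 1) ^ 5 := Nat.mul_le_mul ((Finset.card_filter_le _ _).trans e) e
      _ = 1 * (n + 1) ^ 10 := by ring
  · intro t ht
    simp only [mem_product, mem_filter] at ht
    exact choose_le_mid ht.1.2.1 ht.1.2.2
  · intro π hπ
    unfold T4 at hπ
    push Not at hπ
    obtain ⟨A, hA1, hA2, h1, h2⟩ := hπ
    have hne : A.Nonempty := Finset.card_pos.1 (by omega)
    obtain ⟨t, ht⟩ := exists_famSet A hne hA1
    obtain ⟨t', ht'⟩ := exists_famSet (A.map π.toEmbedding) (by simpa using hne) (by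
      obtain ⟨d₁, d₂, d₃, hd⟩ := hA2
      refine ⟨π d₁, π d₂, π d₃, fun q₁ q q₂ a b c d => ?_⟩
      rw [Finset.mem_map_equiv] at a b ⊢
      have := hd (π.symm q₁) (π.symm q) (π.symm q₂) a b (by simpa using c) (by simpa using d)
      simpa only [Equiv.symm_apply_eq] using this)
    refine ⟨(t, t'), ?_, ?_⟩
    · simp only [mem_product, mem_filter, mem_univ, true_and, and_true, ht]
      exact ⟨h1, h2⟩
    · simp only [ht, ht']

theorem tends_zero (c : ℕ → ℕ) (C k : ℕ)
    (h : ∀ n, c n * n.choose (k + 1) ≤ C * (n + 1) ^ k * n.factorial) :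
    Tendsto (fun n => (c n : ℝ) / n.factorial) atTop (𝓝 0) := by
  have hlim : Tendsto (fun n : ℕ => ((C : ℝ) * 2 ^ (k + 1) * (k + 1).factorial) * (1 / ((n : ℝ) + 1)))
      atTop (𝓝 0) := by
    have := (tendsto_one_div_add_atTop_nhds_zero_nat (𝕜 := ℝ)).const_mul
      ((C : ℝ) * 2 ^ (k + 1) * (k + 1).factorial)
    simpa using this
  refine squeeze_zero' (Eventually.of_forall fun n => by positivity) ?_ hlim
  filter_upwards [eventually_ge_atTop (2 * k + 2)] with n hn
  have hf : (0 : ℝ) < n.factorial := by exact_mod_cast n.factorial_pos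
  have hk : (0 : ℝ) < (k + 1).factorial := by exact_mod_cast (k + 1).factorial_pos
  have h1 : (c n : ℝ) * n.choose (k + 1) ≤ C * ((n : ℝ) + 1) ^ k * n.factorial := by
    exact_mod_cast h n
  have h2 : (((n + 1 - (k + 1) : ℕ) : ℝ) ^ (k + 1)) / (k + 1).factorial ≤ n.choose (k + 1) :=
    Nat.pow_le_choose (k + 1) n
  have h3 : ((n : ℝ) + 1) / 2 ≤ ((n + 1 - (k + 1) : ℕ) : ℝ) := by
    have : n + 1 ≤ 2 * (n + 1 - (k + 1)) := by omega
    have : ((n : ℝ) + 1) ≤ 2 * ((n + 1 - (k + 1) : ℕ) : ℝ) := by exact_mod_cast this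
    linarith
  have h4 : (((n : ℝ) + 1) / 2) ^ (k + 1) / (k + 1).factorial ≤ n.choose (k + 1) := by
    refine le_trans ?_ h2
    gcongr
  have hn1 : (0 : ℝ) < (n : ℝ) + 1 := by positivity
  have h5 : (c n : ℝ) * ((((n : ℝ) + 1) / 2) ^ (k + 1) / (k + 1).factorial) ≤
      C * ((n : ℝ) + 1) ^ k * n.factorial := le_trans (by gcongr) h1
  rw [div_le_iff₀ hf]
  have h6 : (c n : ℝ) * ((((n : ℝ) + 1) / 2) ^ (k + 1) / (k + 1).factorial) =
      ((c n : ℝ) * ((n : ℝ) + 1) / (2 ^ (k + 1) * (k + 1).factorial)) * ((n : ℝ) + 1) ^ k := by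
    rw [div_pow, pow_succ]; field_simp
  rw [h6, mul_right_comm] at h5
  have h7 := le_of_mul_le_mul_right h5 (by positivity)
  rw [div_le_iff₀ (by positivity)] at h7
  have h8 : (C : ℝ) * 2 ^ (k + 1) * (k + 1).factorial * (1 / ((n : ℝ) + 1)) * n.factorial =
      (C * n.factorial * (2 ^ (k + 1) * (k + 1).factorial)) / ((n : ℝ) + 1) := by
    field_simp
  rw [h8, le_div_iff₀ hn1]
  exact h7

/-- All typicality conditions. -/
def Typ {n : ℕ} (π : Equiv.Perm (Fin n)) : Prop := T1 π ∧ T2 π ∧ T3 π ∧ T4 π ∧ T5 π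

theorem tendsto_atypical :
    Tendsto (fun n => (cnt (fun π : Equiv.Perm (Fin n) => ¬ Typ π) : ℝ) / n.factorial) atTop
      (𝓝 0) := by
  have t1 := tends_zero _ _ 1 bad1
  have t2 := tends_zero _ _ 1 bad2
  have t3 := tends_zero _ _ 0 bad3
  have t4 := tends_zero _ _ 10 bad4
  have t5 := tends_zero _ _ 2 bad5
  have hs := t1.add (t2.add (t3.add (t4.add t5)))
  simp only [add_zero] at hs
  refine squeeze_zero (fun n => by positivity) (fun n => ?_) hs
  rw [← add_div, ← add_div, ← add_div, ← add_div]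
  gcongr
  have : cnt (fun π : Equiv.Perm (Fin n) => ¬ Typ π) ≤
      cnt (fun π : Equiv.Perm (Fin n) => ¬ T1 π) + (cnt (fun π : Equiv.Perm (Fin n) => ¬ T2 π) +
      (cnt (fun π : Equiv.Perm (Fin n) => ¬ T3 π) + (cnt (fun π : Equiv.Perm (Fin n) => ¬ T4 π) +
      cnt (fun π : Equiv.Perm (Fin n) => ¬ T5 π)))) := by
    refine le_trans (cnt_mono (Q := fun π => ¬ T1 π ∨ (¬ T2 π ∨ (¬ T3 π ∨ (¬ T4 π ∨ ¬ T5 π))))
      (fun π h => by unfold Typ at h; tauto)) ?_
    refine (cnt_or _ _).trans (Nat.add_le_add_left ?_ _)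
    refine (cnt_or _ _).trans (Nat.add_le_add_left ?_ _)
    refine (cnt_or _ _).trans (Nat.add_le_add_left ?_ _)
    exact cnt_or _ _
  exact_mod_cast this

end Pool.Agent.Lib.MP_d28c7d_co
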