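import Mathlib

set_option autoImplicit false

namespace Pool.Agent.Lib.MP_d28c7d_co

/-- A finite permutation: a length `n` together with a permutation of `Fin n`. -/
abbrev FinPerm : Type := Σ n : ℕ, Equiv.Perm (Fin n)

/-- `f` is an occurrence of the pattern `σ` in `τ`: an increasing choice of positions of `τ`
whose entries are order-isomorphic to `σ`. -/
def IsCopy (σ τ : FinPerm) (f : Fin σ.1 → Fin τ.1) : Prop :=
  StrictMono f ∧ ∀ i j : Fin σ.1, σ.2 i < σ.2 j ↔ τ.2 (f i) < τ.2 (f j)

/-- The principal class `Av(π)`: all finite permutations with no occurrence of `π`. -/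
def Av (π : FinPerm) : Set FinPerm := {τ | ¬ ∃ f : Fin π.1 → Fin τ.1, IsCopy π τ f}

/-- A class `C` is unsplittable if for all `σ, ρ ∈ C` there is `τ ∈ C` such that, for every
colouring of the entries of `τ` (the set `red` of red positions, the others being blue), there is
a red occurrence of `σ` or a blue occurrence of `ρ`. -/
def Unsplittable (C : Set FinPerm) : Prop :=
  ∀ σ ∈ C, ∀ ρ ∈ C, ∃ τ ∈ C, ∀ red : Set (Fin τ.1),
    (∃ f : Fin σ.1 → Fin τ.1, IsCopy σ τ f ∧ ∀ i, f i ∈ red) ∨
    (∃ f : Fin ρ.1 → Fin τ.1, IsCopy ρ τ f ∧ ∀ i, f i ∉ red)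

/-- The probability that `Av(π)` is unsplittable for a uniformly random `π ∈ S_n`. -/
noncomputable def probUnsplittable (n : ℕ) : ℝ :=
  (Nat.card {π : Equiv.Perm (Fin n) // Unsplittable (Av ⟨n, π⟩)} : ℝ) / (n.factorial : ℝ)

end Pool.Agent.Lib.MP_d28c7d_co
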