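import Pool.Agent.Lib.MP_d28c7d_co.Alpha

set_option autoImplicit false

namespace Pool.Agent.Lib.MP_d28c7d_co

open Finset

/-- What a copy of the forcing configuration imposes around its marked point `o`. -/
def Force {κ : Type} (x y : κ → ℤ) (o : κ) (asc : Prop) : Prop :=
  ∃ X Y₁ W Y₂ : κ, x W < x Y₂ ∧ x Y₂ < x o ∧ x o < x X ∧ y Y₁ < y o ∧ y o < y W ∧ y W < y Y₂ ∧
    (y X < y Y₁ ∨ y Y₂ < y X) ∧
    (∀ z, x X < x z → y Y₁ < y z → y z < y Y₂ → False) ∧
    (∀ z₁ z₂, x o ≤ x z₁ → x z₁ < x X → x o ≤ x z₂ → x z₂ < x X → y o ≤ y z₁ → y z₁ < y z₂ →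
      y z₂ < y Y₂ → (asc → x z₁ < x z₂) → (¬ asc → x z₂ < x z₁) → False)

theorem force_incompatible {κ : Type} (x x' y : κ → ℤ) (hx : Function.Injective x)
    (hy : Function.Injective y) (hxx : ∀ a b, x' a < x' b ↔ x b < x a) (o : κ) (P Q : Prop)
    (hP : P) (hQ : ¬ Q) (h : Force x y o P) (h' : Force x' y o Q) : False := by
  obtain ⟨X, Y₁, W, Y₂, a1, a2, a3, a4, a5, a6, a7, a8, a9⟩ := h
  obtain ⟨X', Y₁', W', Y₂', b1, b2, b3, b4, b5, b6, b7, b8, b9⟩ := h'
  have hle : ∀ a b, x' a ≤ x' b ↔ x b ≤ x a := by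
    intro a b
    rw [← not_lt, ← not_lt, hxx]
  rw [hxx] at b1 b2 b3
  rcases lt_trichotomy (y Y₂') (y Y₂) with h | h | h
  · rcases lt_trichotomy (x X) (x Y₂') with h1 | h1 | h1
    · exact a8 Y₂' h1 (by omega) h
    · have := hx h1
      subst this
      omega
    · exact a9 o Y₂' le_rfl a3 b2.le h1 le_rfl (by omega) h (fun _ => b2) (fun h => absurd hP h)
  · have := hy h
    subst this
    omega
  · rcases lt_trichotomy (x W) (x X') with h1 | h1 | h1
    · exact b8 W ((hxx _ _).2 h1) (by omega) (by omega)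
    · have := hx h1
      subst this
      omega
    · refine b9 W Y₂ ((hle _ _).2 (by omega)) ((hxx _ _).2 h1) ((hle _ _).2 (by omega))
        ((hxx _ _).2 (by omega)) (by omega) a6 h (fun h => absurd h hQ) (fun _ => (hxx _ _).2 a1)

theorem force_of_emb {n : ℕ} (hn : 100 ≤ n) {π : Equiv.Perm (Fin n)} (h1 : T1 π)
    (h3 : T3 π) (u v l : Fin n) (hp : (v : ℕ) = u + 1 ∨ (u : ℕ) = v + 1)
    (hv : (π v : ℕ) = π u + 1) (hl : (l : ℕ) + 1 = n) (huv : u ≠ v)
    {κ : Type} (x y : κ → ℤ) (hav : ¬ ∃ f, Emb π x y f) (g : Idx v → κ)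
    (hg : CEmb (posA u v) (valA π u v l) x y g) :
    Force x y (g (Sum.inl ⟨u, huv⟩)) (u < v) := by
  classical
  obtain ⟨hg1, hg2⟩ := hg
  have hBl : Bd l := Or.inr (by omega)
  have hL := h3 l hBl
  unfold Bd at hL
  have hu := u.2
  have hπu := (π u).2
  have hπl := (π l).2
  let t : Fin n := ⟨n - 2, by omega⟩
  have ht : (t : ℕ) + 2 = n := by simp only [t]; omega
  have hT := h1 t l (fun h => by have := congrArg Fin.val h; omega) (Or.inr (by omega)) hBl
  obtain ⟨qa, hqa⟩ : ∃ q, (π q : ℕ) + 1 = π l :=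
    ⟨π.symm ⟨π l - 1, by omega⟩, by simp only [Equiv.apply_symm_apply]; omega⟩
  obtain ⟨qb, hqb⟩ : ∃ q, (π q : ℕ) = π l + 1 :=
    ⟨π.symm ⟨π l + 1, by omega⟩, by simp only [Equiv.apply_symm_apply]⟩
  have hqbl : (qb : ℕ) + 1 ≠ n := by
    intro h
    have : qb = l := Fin.ext (by omega)
    rw [this] at hqb; omega
  have hqbt : (qb : ℕ) + 2 ≠ n := by
    intro h
    have : qb = t := Fin.ext (by omega)
    rw [this] at hqb; omega
  have pl := posR_cases u l
  have pt := posR_cases u t
  have pb := posR_cases u qb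
  have vl := valR_cases π u l l
  have vt := valR_cases π u l t
  have va := valR_cases π u l qa
  have vb := valR_cases π u l qb
  have hπt := (π t).2
  have hg1' : ∀ a b, posA u v a ≤ posA u v b → x (g a) ≤ x (g b) := by
    intro a b hab
    rcases hab.lt_or_eq with h | h
    · exact (hg1 a b h).le
    · rw [posA_inj u v h]
  have hg2' : ∀ a b, valA π u v l a ≤ valA π u v l b → y (g a) ≤ y (g b) := by
    intro a b hab
    rcases hab.lt_or_eq with h | h
    · exact (hg2 a b h).le
    · rw [valA_inj π u v l h]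
  refine ⟨g (Sum.inr t), g (Sum.inr qa), g (Sum.inr l), g (Sum.inr qb), ?_, ?_, ?_, ?_, ?_, ?_, ?_,
    ?_, ?_⟩
  · apply hg1; simp only [posA_inr]; omega
  · apply hg1; simp only [posA_inr, posA_inl]; omega
  · apply hg1; simp only [posA_inr, posA_inl]; omega
  · apply hg2; simp only [valA_inr, valA_inl]; omega
  · apply hg2; simp only [valA_inr, valA_inl]; omega
  · apply hg2; simp only [valA_inr]; omega
  · rcases hT with h | h
    · left; apply hg2; simp only [valA_inr]; omega
    · right; apply hg2; simp only [valA_inr]; omega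
  · intro z z1 z2 z3
    refine hav ⟨fun q => if q = l then z else g (Sum.inr q), fun i j hij => ?_, fun i j hij => ?_⟩
    · have hil : i ≠ l := by
        intro h
        have := j.2
        rw [Fin.lt_def, h] at hij
        omega
      have hi : (i : ℕ) + 1 ≠ n := fun h => hil (Fin.ext (by omega))
      by_cases hj : j = l
      · simp only [hil, hj, if_true, if_false]
        refine lt_of_le_of_lt (hg1' _ _ ?_) z1
        have := posR_cases u i
        simp only [posA_inr]; omega
      · simp only [hil, hj, if_false]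
        apply hg1
        simp only [posA_inr, Nat.cast_lt]
        exact (posR_lt u i j hi (fun h => hj (Fin.ext (by omega)))).2 hij
    · rw [Fin.lt_def] at hij
      by_cases hi : i = l
      · have hj : j ≠ l := by
          intro h; rw [hi, h] at hij; omega
        simp only [hi, hj, if_true, if_false]
        refine lt_of_lt_of_le z3 (hg2' _ _ ?_)
        have := valR_cases π u l j
        rw [hi] at hij
        simp only [valA_inr]; omega
      · by_cases hj : j = l
        · simp only [hi, hj, if_true, if_false]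
          refine lt_of_le_of_lt (hg2' _ _ ?_) z2
          have := valR_cases π u l i
          rw [hj] at hij
          simp only [valA_inr]; omega
        · simp only [hi, hj, if_false]
          apply hg2
          simp only [valA_inr, Nat.cast_lt]
          exact (valR_lt π u l i j).2 hij
  · intro z₁ z₂ c1 c2 c3 c4 c5 c6 c7 c8 c9
    let F : Fin n → κ := fun q =>
      if q = u then z₁ else if h : q = v then z₂ else g (Sum.inl ⟨q, h⟩)
    have Fu : F u = z₁ := by simp [F]
    have Fv : F v = z₂ := by simp [F, huv.symm]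
    have Fq : ∀ q, q ≠ u → ∀ h : q ≠ v, F q = g (Sum.inl ⟨q, h⟩) := by
      intro q h1 h2; simp [F, h1, h2]
    have lo : ∀ q, q ≠ u → q ≠ v → (q : ℕ) < u → x (F q) < x (g (Sum.inl ⟨u, huv⟩)) := by
      intro q a b c
      rw [Fq q a b]; apply hg1; simp only [posA_inl]; omega
    have hi : ∀ q, q ≠ u → q ≠ v → (u : ℕ) < q → x (g (Sum.inr t)) < x (F q) := by
      intro q a b c
      rw [Fq q a b]; apply hg1; simp only [posA_inl, posA_inr]; omega
    have lo' : ∀ q, q ≠ u → q ≠ v → (π q : ℕ) < π u → y (F q) < y (g (Sum.inl ⟨u, huv⟩)) := by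
      intro q a b c
      rw [Fq q a b]; apply hg2; simp only [valA_inl]; omega
    have hi' : ∀ q, q ≠ u → q ≠ v → (π u : ℕ) < π q → y (g (Sum.inr qb)) < y (F q) := by
      intro q a b c
      rw [Fq q a b]; apply hg2; simp only [valA_inl, valA_inr]; omega
    have ne1 : ∀ a b : Fin n, a ≠ b → (a : ℕ) ≠ b := fun a b h h' => h (Fin.ext h')
    have ne2 : ∀ a b : Fin n, a ≠ b → (π a : ℕ) ≠ π b :=
      fun a b h h' => h (π.injective (Fin.ext h'))
    refine hav ⟨F, fun i j hij => ?_, fun i j hij => ?_⟩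
    · have hij' := Fin.lt_def.1 hij
      by_cases iu : i = u
      · by_cases jv : j = v
        · rw [iu, jv, Fu, Fv]
          exact c8 (by rw [← iu, ← jv]; exact hij)
        · have ju : j ≠ u := by rw [← iu]; exact hij.ne'
          rw [iu, Fu]
          exact c2.trans (hi j ju jv (by rw [← iu]; exact hij'))
      · by_cases iv : i = v
        · by_cases ju : j = u
          · rw [iv, ju, Fu, Fv]
            exact c9 (by rw [← iv, ← ju]; exact not_lt.2 hij.le)
          · have jv : j ≠ v := by rw [← iv]; exact hij.ne'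
            rw [iv, Fv]
            have := ne1 j u ju
            exact c4.trans (hi j ju jv (by rw [iv] at hij'; omega))
        · by_cases ju : j = u
          · rw [ju, Fu]
            exact lt_of_lt_of_le (lo i iu iv (by rw [← ju]; exact hij')) c1
          · by_cases jv : j = v
            · rw [jv, Fv]
              have := ne1 i u iu
              exact lt_of_lt_of_le (lo i iu iv (by rw [jv] at hij'; omega)) c3
            · rw [Fq i iu iv, Fq j ju jv]
              apply hg1; simp only [posA_inl]; omega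
    · have hij' := Fin.lt_def.1 hij
      have hne : i ≠ j := fun h => by rw [h] at hij'; omega
      by_cases iu : i = u
      · by_cases jv : j = v
        · rw [iu, jv, Fu, Fv]
          exact c6
        · have ju : j ≠ u := by rw [← iu]; exact hne.symm
          rw [iu, Fu]
          exact (c6.trans c7).trans (hi' j ju jv (by rw [← iu]; exact hij'))
      · by_cases iv : i = v
        · by_cases ju : j = u
          · rw [iv, ju] at hij'; omega
          · have jv : j ≠ v := by rw [← iv]; exact hne.symm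
            rw [iv, Fv]
            exact c7.trans (hi' j ju jv (by rw [iv] at hij'; omega))
        · by_cases ju : j = u
          · rw [ju, Fu]
            exact lt_of_lt_of_le (lo' i iu iv (by rw [← ju]; exact hij')) c5
          · by_cases jv : j = v
            · rw [jv, Fv]
              have := ne2 i u iu
              exact (lt_of_lt_of_le (lo' i iu iv (by rw [jv] at hij'; omega)) c5).trans c6
            · rw [Fq i iu iv, Fq j ju jv]
              apply hg2; simp only [valA_inl]; omega

theorem emb_mir {n : ℕ} (π : Equiv.Perm (Fin n)) {κ : Type} (x x' y : κ → ℤ)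
    (hxx : ∀ a b, x b < x a → x' a < x' b) (f : Fin n → κ) (hf : Emb (mir π) x y f) :
    Emb π x' y (fun i => f (Fin.rev i)) := by
  refine ⟨fun i j hij => hxx _ _ (hf.1 _ _ (Fin.rev_lt_rev.2 hij)), fun i j hij => hf.2 _ _ ?_⟩
  simpa [mir_apply] using hij

theorem emb_mir' {n : ℕ} (π : Equiv.Perm (Fin n)) {κ : Type} (x x' y : κ → ℤ)
    (hxx : ∀ a b, x b < x a → x' a < x' b) (f : Fin n → κ) (hf : Emb π x y f) :
    Emb (mir π) x' y (fun i => f (Fin.rev i)) :=
  ⟨fun _ _ hij => hxx _ _ (hf.1 _ _ (Fin.rev_lt_rev.2 hij)), fun _ _ hij => hf.2 _ _ hij⟩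

/-- Main combinatorial theorem: a typical permutation with an interval of size two has a
splittable principal class. -/
theorem splittable_of_typical {n : ℕ} (hn : 100 ≤ n) {π : Equiv.Perm (Fin n)} (h1 : T1 π)
    (h2 : T2 π) (h3 : T3 π) (h4 : T4 π) (u v : Fin n)
    (hp : (v : ℕ) = u + 1 ∨ (u : ℕ) = v + 1) (hv : (π v : ℕ) = π u + 1) :
    ¬ Unsplittable (Av ⟨n, π⟩) := by
  classical
  let l : Fin n := ⟨n - 1, by omega⟩
  have hl : (l : ℕ) + 1 = n := by simp only [l]; omega
  have huv : u ≠ v := fun h => by rw [h] at hv; omega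
  have huv' : u.rev ≠ v.rev := fun h => huv (Fin.rev_injective h)
  have hu := u.2
  have hv2 := v.2
  have hp' : (v.rev : ℕ) = u.rev + 1 ∨ (u.rev : ℕ) = v.rev + 1 := by
    rw [Fin.val_rev, Fin.val_rev]; omega
  have hv' : (mir π v.rev : ℕ) = mir π u.rev + 1 := by
    simpa [mir_apply] using hv
  refine not_unsplittable π (posA u v) (valA π u v l) (fun a => - posA u.rev v.rev a)
    (valA (mir π) u.rev v.rev l) (posA_inj u v) (valA_inj π u v l)
    (fun a b h => posA_inj _ _ (neg_injective h)) (valA_inj _ _ _ _) (Sum.inl ⟨u, huv⟩)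
    (Sum.inl ⟨u.rev, huv'⟩) (alpha_avoid hn h1 h2 h3 h4 u v l hp hv hl) ?_ ?_
  · rintro ⟨f, hf⟩
    refine alpha_avoid hn (T1_mir h1) (T2_mir h2) (T3_mir h3) (T4_mir h4) u.rev v.rev l hp' hv' hl
      ⟨_, emb_mir' π _ (posA u.rev v.rev) _ (fun a b h => ?_) f hf⟩
    simpa using h
  · intro τ hτ g₁ g₂ hg₁ hg₂ hgg
    have F1 := force_of_emb hn h1 h3 u v l hp hv hl huv (px τ) (py τ) hτ g₁ hg₁
    have F2 := force_of_emb hn (T1_mir h1) (T3_mir h3) u.rev v.rev l hp' hv' hl huv'
      (fun a => - px τ a) (py τ) (by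
        rintro ⟨f, hf⟩
        refine hτ ⟨_, emb_mir π _ (px τ) _ (fun a b h => ?_) f hf⟩
        simpa using h) g₂ (by
        refine ⟨fun a b h => ?_, hg₂.2⟩
        have := hg₂.1 b a (by simpa using h)
        simpa using this)
    rw [← hgg] at F2
    by_cases hlt : u < v
    · refine force_incompatible (px τ) (fun a => - px τ a) (py τ) (px_inj τ) (py_inj τ)
        (fun a b => by simp) _ _ _ hlt ?_ F1 F2
      rw [Fin.rev_lt_rev]
      exact not_lt.2 hlt.le
    · refine force_incompatible (fun a => - px τ a) (px τ) (py τ)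
        (fun a b h => px_inj τ (neg_injective h)) (py_inj τ)
        (fun a b => by simp) _ _ _ ?_ hlt F2 F1
      rw [Fin.rev_lt_rev]
      exact lt_of_le_of_ne (not_lt.1 hlt) huv.symm

end Pool.Agent.Lib.MP_d28c7d_co
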