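import Pool.Agent.Lib.MP_d28c7d_co.Count

set_option autoImplicit false

namespace Pool.Agent.Lib.MP_d28c7d_co

open Finset Filter Topology

/-- Insert a new entry with position `p` and value `v`. -/
def ins {n : ℕ} (p v : Fin (n + 1)) (π : Equiv.Perm (Fin n)) : Equiv.Perm (Fin (n + 1)) :=
  (finSuccEquiv' p).trans ((Equiv.optionCongr π).trans (finSuccEquiv' v).symm)

theorem ins_self {n : ℕ} (p v : Fin (n + 1)) (π : Equiv.Perm (Fin n)) : ins p v π p = v := by
  simp [ins]

theorem ins_succAbove {n : ℕ} (p v : Fin (n + 1)) (π : Equiv.Perm (Fin n)) (j : Fin n) :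
    ins p v π (p.succAbove j) = v.succAbove (π j) := by
  simp [ins]

theorem ins_inj {n : ℕ} (p : Fin (n + 1)) :
    Function.Injective (fun t : Fin (n + 1) × Equiv.Perm (Fin n) => ins p t.1 t.2) := by
  rintro ⟨v, π⟩ ⟨v', π'⟩ h
  simp only at h
  have h1 : v = v' := by rw [← ins_self p v π, h, ins_self]
  subst h1
  refine Prod.ext rfl (Equiv.ext fun j => ?_)
  have := ins_succAbove p v π j
  rw [h, ins_succAbove] at this
  exact (Fin.succAbove_right_injective this).symm

theorem ins_surj {n : ℕ} (p : Fin (n + 1)) (π : Equiv.Perm (Fin (n + 1))) :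
    ∃ v π', ins p v π' = π := by
  have : Function.Bijective (fun t : Fin (n + 1) × Equiv.Perm (Fin n) => ins p t.1 t.2) := by
    rw [Fintype.bijective_iff_injective_and_card]
    refine ⟨ins_inj p, ?_⟩
    simp [Fintype.card_perm, Nat.factorial_succ]
  obtain ⟨t, ht⟩ := this.2 π
  exact ⟨t.1, t.2, ht⟩

theorem succAbove_val {n : ℕ} (v : Fin (n + 1)) (a : Fin n) :
    ((a : ℕ) < v ∧ (v.succAbove a : ℕ) = a) ∨ ((v : ℕ) ≤ a ∧ (v.succAbove a : ℕ) = a + 1) := by
  by_cases h : a.castSucc < v
  · left
    rw [Fin.succAbove_of_castSucc_lt _ _ h]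
    exact ⟨h, rfl⟩
  · right
    rw [Fin.succAbove_of_le_castSucc _ _ (not_lt.1 h)]
    exact ⟨not_lt.1 h, rfl⟩

theorem ins_lt {n : ℕ} (p v : Fin (n + 1)) (π : Equiv.Perm (Fin n)) (z : Fin (n + 1)) (j : Fin n)
    (hz : (z : ℕ) = j) (hj : (j : ℕ) < p) :
    ((π j : ℕ) < v ∧ (ins p v π z : ℕ) = π j) ∨ ((v : ℕ) ≤ π j ∧ (ins p v π z : ℕ) = π j + 1) := by
  have : z = p.succAbove j := by
    rw [Fin.succAbove_of_castSucc_lt _ _ (show j.castSucc < p from hj)]
    exact Fin.ext hz
  rw [this, ins_succAbove]
  exact succAbove_val v (π j)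

/-- Positions `i` and `i+1` carry consecutive values. -/
def Adj {n : ℕ} (π : Equiv.Perm (Fin n)) (i : ℕ) : Prop :=
  ∃ p q : Fin n, (p : ℕ) = i ∧ (q : ℕ) = i + 1 ∧ ((π q : ℕ) = π p + 1 ∨ (π p : ℕ) = π q + 1)

noncomputable def NN (n : ℕ) (K : Finset ℕ) : ℕ :=
  cnt (fun π : Equiv.Perm (Fin n) => ∀ i ∈ K, Adj π i)

def Psi {n : ℕ} (i : Fin n) (t : Bool × Equiv.Perm (Fin n)) : Equiv.Perm (Fin (n + 1)) :=
  ins i.succ (if t.1 then (t.2 i).succ else (t.2 i).castSucc) t.2

theorem Psi_inj {n : ℕ} (i : Fin n) : Function.Injective (Psi i) := by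
  rintro ⟨b, π⟩ ⟨b', π'⟩ h
  have := ins_inj i.succ (a₁ := (if b then (π i).succ else (π i).castSucc, π))
    (a₂ := (if b' then (π' i).succ else (π' i).castSucc, π')) h
  simp only [Prod.mk.injEq] at this
  obtain ⟨h1, h2⟩ := this
  subst h2
  have h3 := congrArg Fin.val h1
  cases b <;> cases b' <;> simp at h3 ⊢

theorem NN_step_le {n : ℕ} (i : Fin n) (K : Finset ℕ) (hK : ∀ j ∈ K, j < i) :
    NN (n + 1) (insert (i : ℕ) K) ≤ 2 * NN n K := by
  classical
  unfold NN cnt
  have : (univ.filter fun π : Equiv.Perm (Fin (n + 1)) => ∀ j ∈ insert (i : ℕ) K, Adj π j) ⊆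
      ((univ : Finset Bool) ×ˢ (univ.filter fun π : Equiv.Perm (Fin n) => ∀ j ∈ K, Adj π j)).image
        (Psi i) := by
    intro π hπ
    simp only [mem_filter, mem_univ, true_and] at hπ
    obtain ⟨v, π', rfl⟩ := ins_surj i.succ π
    have hi := i.2
    obtain ⟨p, q, hp, hq, h⟩ := hπ i (mem_insert_self _ _)
    have hq' : q = i.succ := Fin.ext hq
    rw [hq', ins_self] at h
    have e := ins_lt i.succ v π' p i hp (by simp)
    have hmem : ∀ j ∈ K, Adj π' j := by
      intro j hj
      have := hK j hj
      obtain ⟨a, b, ha, hb, hab⟩ := hπ j (mem_insert_of_mem hj)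
      have e1 := ins_lt i.succ v π' a ⟨j, by omega⟩ ha (by simp only [Fin.val_succ]; omega)
      have e2 := ins_lt i.succ v π' b ⟨j + 1, by omega⟩ hb (by simp only [Fin.val_succ]; omega)
      exact ⟨⟨j, by omega⟩, ⟨j + 1, by omega⟩, rfl, rfl, by omega⟩
    rw [mem_image]
    by_cases hv : (v : ℕ) = π' i + 1
    · refine ⟨(true, π'), by simpa using hmem, ?_⟩
      have : v = (π' i).succ := Fin.ext hv
      rw [this]; rfl
    · refine ⟨(false, π'), by simpa using hmem, ?_⟩
      have : v = (π' i).castSucc := Fin.ext (by simp only [Fin.val_castSucc]; omega)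
      rw [this]; rfl
  refine le_trans ?_ (le_trans (Finset.card_le_card this) (le_trans Finset.card_image_le ?_))
  · apply le_of_eq; congr
  · rw [Finset.card_product]
    simp only [card_univ, Fintype.card_bool]
    apply le_of_eq; congr

theorem NN_step_ge {n : ℕ} (i : Fin n) (K : Finset ℕ) (hK : ∀ j ∈ K, j + 1 < i) :
    2 * NN n K ≤ NN (n + 1) (insert (i : ℕ) K) := by
  classical
  unfold NN cnt
  have : ((univ : Finset Bool) ×ˢ
      (univ.filter fun π : Equiv.Perm (Fin n) => ∀ j ∈ K, Adj π j)).card ≤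
      (univ.filter fun π : Equiv.Perm (Fin (n + 1)) => ∀ j ∈ insert (i : ℕ) K, Adj π j).card := by
    refine Finset.card_le_card_of_injOn (Psi i) ?_ (Psi_inj i).injOn
    rintro ⟨b, π⟩ hπ
    simp only [coe_product, coe_univ, coe_filter, mem_univ, true_and, Set.mem_prod, Set.mem_univ,
      Set.mem_ofPred_eq] at hπ ⊢
    obtain ⟨v, hv, hv'⟩ : ∃ v : Fin (n + 1), Psi i (b, π) = ins i.succ v π ∧
        ((v : ℕ) = π i + 1 ∨ (v : ℕ) = π i) := by
      refine ⟨_, rfl, ?_⟩
      cases b <;> simp
    rw [hv]
    intro j hj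
    rcases mem_insert.1 hj with rfl | hj
    · have e := ins_lt i.succ v π i.castSucc i rfl (by simp)
      refine ⟨i.castSucc, i.succ, rfl, rfl, ?_⟩
      rw [ins_self]
      omega
    · have := hK j hj
      obtain ⟨a, b, ha, hb, hab⟩ := hπ j hj
      have e1 := ins_lt i.succ v π a.castSucc a rfl (by simp only [Fin.val_succ]; omega)
      have e2 := ins_lt i.succ v π b.castSucc b rfl (by simp only [Fin.val_succ]; omega)
      have n1 : (π a : ℕ) ≠ π i := fun h => by
        have := congrArg Fin.val (π.injective (Fin.ext h)); omega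
      have n2 : (π b : ℕ) ≠ π i := fun h => by
        have := congrArg Fin.val (π.injective (Fin.ext h)); omega
      exact ⟨a.castSucc, b.castSucc, ha, hb, by omega⟩
  rw [Finset.card_product] at this
  simp only [card_univ, Fintype.card_bool] at this
  refine le_trans ?_ (le_trans this ?_)
  · apply le_of_eq; congr
  · apply le_of_eq; congr

theorem NN_empty (n : ℕ) : NN n ∅ = n.factorial := by
  unfold NN cnt
  simp [Fintype.card_perm]

theorem NN_le (K : Finset ℕ) : ∀ n, (∀ i ∈ K, i + 1 < n) →
    NN n K ≤ 2 ^ K.card * (n - K.card).factorial := by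
  induction K using Finset.induction_on_max with
  | empty => intro n _; simp [NN_empty]
  | insert a s hs ih =>
    intro n hn
    have ha := hn a (mem_insert_self _ _)
    obtain ⟨m, rfl⟩ : ∃ m, n = m + 1 := ⟨n - 1, by omega⟩
    have h1 := NN_step_le (n := m) ⟨a, by omega⟩ s hs
    have h2 := ih m (fun i hi => by have := hs i hi; omega)
    rw [Finset.card_insert_of_notMem (fun h => lt_irrefl _ (hs a h)), Nat.add_sub_add_right, pow_succ]
    simp only at h1
    nlinarith

def Sparse (K : Finset ℕ) : Prop := ∀ i ∈ K, i + 1 ∉ K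

theorem NN_ge (K : Finset ℕ) : ∀ n, (∀ i ∈ K, i + 1 < n) → Sparse K →
    2 ^ K.card * (n - K.card).factorial ≤ NN n K := by
  induction K using Finset.induction_on_max with
  | empty => intro n _ _; simp [NN_empty]
  | insert a s hs ih =>
    intro n hn hsp
    have ha := hn a (mem_insert_self _ _)
    obtain ⟨m, rfl⟩ : ∃ m, n = m + 1 := ⟨n - 1, by omega⟩
    have h1 := NN_step_ge (n := m) ⟨a, by omega⟩ s (fun j hj => by
      have e1 := hs j hj
      have e2 := hsp j (mem_insert_of_mem hj)
      have e3 : j + 1 ≠ a := fun h => e2 (h ▸ mem_insert_self _ _)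
      simp only; omega)
    have h2 := ih m (fun i hi => by have := hs i hi; omega)
      (fun i hi h => hsp i (mem_insert_of_mem hi) (mem_insert_of_mem h))
    rw [Finset.card_insert_of_notMem (fun h => lt_irrefl _ (hs a h)), Nat.add_sub_add_right, pow_succ]
    simp only at h1
    nlinarith

noncomputable def SS (n k : ℕ) : ℕ := ∑ K ∈ powersetCard k (range (n - 1)), NN n K

/-- No two adjacent positions carry consecutive values. -/
def NoAdj {n : ℕ} (π : Equiv.Perm (Fin n)) : Prop := ∀ i ∈ range (n - 1), ¬ Adj π i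

theorem incl_excl (n : ℕ) : (cnt (fun π : Equiv.Perm (Fin n) => NoAdj π) : ℝ) =
    ∑ k ∈ range (n - 1 + 1), (-1) ^ k * (SS n k : ℝ) := by
  classical
  have h1 : ∀ π : Equiv.Perm (Fin n), (if NoAdj π then (1 : ℝ) else 0) =
      ∑ K ∈ powerset (range (n - 1)), (-1) ^ K.card * (if ∀ i ∈ K, Adj π i then (1 : ℝ) else 0) := by
    intro π
    have e1 : (if NoAdj π then (1 : ℝ) else 0) =
        ∏ i ∈ range (n - 1), (1 + (-1) * (if Adj π i then (1 : ℝ) else 0)) := by
      by_cases h : NoAdj π
      · rw [if_pos h, Finset.prod_eq_one]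
        intro i hi
        simp [h i hi]
      · rw [if_neg h]
        unfold NoAdj at h
        push Not at h
        obtain ⟨i, hi, h⟩ := h
        exact (Finset.prod_eq_zero hi (by simp [h])).symm
    rw [e1, Finset.prod_one_add]
    refine Finset.sum_congr rfl fun K _ => ?_
    rw [Finset.prod_mul_distrib, Finset.prod_const, Finset.prod_boole]
  have h2 : (cnt (fun π : Equiv.Perm (Fin n) => NoAdj π) : ℝ) =
      ∑ π : Equiv.Perm (Fin n), (if NoAdj π then (1 : ℝ) else 0) := by
    rw [Finset.sum_boole]; unfold cnt; congr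
  rw [h2, Finset.sum_congr rfl fun π _ => h1 π, Finset.sum_comm, Finset.sum_powerset,
    Finset.card_range]
  refine Finset.sum_congr rfl fun k _ => ?_
  unfold SS
  rw [Nat.cast_sum, Finset.mul_sum]
  refine Finset.sum_congr rfl fun K hK => ?_
  rw [← Finset.mul_sum, Finset.sum_boole, (mem_powersetCard.1 hK).2]
  unfold NN cnt
  congr

theorem SS_le (n k : ℕ) : SS n k * k.factorial ≤ 2 ^ k * n.factorial := by
  have h1 : SS n k ≤ (n - 1).choose k * (2 ^ k * (n - k).factorial) := by
    unfold SS
    have := Finset.sum_le_card_nsmul (powersetCard k (range (n - 1))) (NN n)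
      (2 ^ k * (n - k).factorial) (fun K hK => by
        rw [mem_powersetCard] at hK
        rw [← hK.2]
        exact NN_le K n (fun i hi => by have := mem_range.1 (hK.1 hi); omega))
    simpa using this
  by_cases hk : k ≤ n
  · have h2 : (n - 1).choose k ≤ n.choose k := Nat.choose_le_choose k (by omega)
    have h3 := Nat.choose_mul_factorial_mul_factorial hk
    calc SS n k * k.factorial ≤ n.choose k * (2 ^ k * (n - k).factorial) * k.factorial := by
          gcongr; exact h1.trans (by gcongr)
      _ = 2 ^ k * (n.choose k * k.factorial * (n - k).factorial) := by ring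
      _ = _ := by rw [h3]
  · rw [Nat.choose_eq_zero_of_lt (by omega)] at h1
    have : SS n k = 0 := by omega
    simp [this]

open Classical in
noncomputable def nSparse (n k : ℕ) : ℕ := ((powersetCard k (range (n - 1))).filter Sparse).card

theorem SS_ge (n k : ℕ) : nSparse n k * (2 ^ k * (n - k).factorial) ≤ SS n k := by
  classical
  unfold SS nSparse
  refine le_trans ?_ (Finset.sum_le_sum_of_subset (Finset.filter_subset Sparse _))
  have := Finset.card_nsmul_le_sum ((powersetCard k (range (n - 1))).filter Sparse) (NN n)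
    (2 ^ k * (n - k).factorial) (fun K hK => by
      rw [mem_filter, mem_powersetCard] at hK
      rw [← hK.1.2]
      exact NN_ge K n (fun i hi => by have := mem_range.1 (hK.1.1 hi); omega) hK.2)
  simpa using this

theorem nSparse_ge (n k : ℕ) : n.choose (k + 1) - nSparse n (k + 1) ≤ (k + 1) * (n + 1) ^ k := by
  classical
  have h1 : ((powersetCard (k + 1) (range (n - 1))).filter fun K => ¬ Sparse K).card ≤
      k * (n - 1).choose k := by
    have : ((powersetCard (k + 1) (range (n - 1))).filter fun K => ¬ Sparse K) ⊆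
        ((powersetCard k (range (n - 1))).sigma (fun K => K)).image
          (fun t => insert (t.2 + 1) t.1) := by
      intro K hK
      rw [mem_filter, mem_powersetCard] at hK
      obtain ⟨⟨h1, h2⟩, h3⟩ := hK
      unfold Sparse at h3
      push Not at h3
      obtain ⟨i, hi, hi'⟩ := h3
      rw [mem_image]
      refine ⟨⟨K.erase (i + 1), i⟩, ?_, Finset.insert_erase hi'⟩
      rw [mem_sigma, mem_powersetCard]
      refine ⟨⟨(Finset.erase_subset _ _).trans h1, ?_⟩, ?_⟩
      · rw [Finset.card_erase_of_mem hi', h2]; rfl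
      · simp [hi]
    refine (Finset.card_le_card this).trans (Finset.card_image_le.trans ?_)
    rw [Finset.card_sigma, Finset.sum_congr rfl (fun K hK => (mem_powersetCard.1 hK).2)]
    simp [mul_comm]
  have h2 := Finset.card_filter_add_card_filter_not (s := powersetCard (k + 1) (range (n - 1))) Sparse
  rw [Finset.card_powersetCard, Finset.card_range] at h2
  have h3 : n.choose (k + 1) ≤ (n - 1).choose k + (n - 1).choose (k + 1) := by
    rw [← Nat.choose_succ_succ]
    exact Nat.choose_le_choose _ (by omega)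
  have h4 : (n - 1).choose k ≤ (n + 1) ^ k :=
    (Nat.choose_le_pow _ _).trans (Nat.pow_le_pow_left (by omega) _)
  have h5 : k * (n - 1).choose k ≤ k * (n + 1) ^ k := Nat.mul_le_mul_left _ h4
  unfold nSparse
  rw [add_mul, one_mul]
  omega

theorem tendsto_SS (k : ℕ) :
    Tendsto (fun n => (SS n k : ℝ) / n.factorial) atTop (𝓝 (2 ^ k / k.factorial)) := by
  rcases k with _ | k
  · simp only [SS, powersetCard_zero, sum_singleton, NN_empty, pow_zero, Nat.factorial_zero,
      Nat.cast_one, div_one]
    refine tendsto_const_nhds.congr fun n => ?_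
    rw [div_self]
    exact_mod_cast n.factorial_ne_zero
  have t := tends_zero
    (fun n => (n.choose (k + 1) - nSparse n (k + 1)) * (n - (k + 1)).factorial) (k + 1) k (by
      intro n
      by_cases hk : k + 1 ≤ n
      · have h3 := Nat.choose_mul_factorial_mul_factorial hk
        have h4 : (n - (k + 1)).factorial * n.choose (k + 1) ≤ n.factorial := by
          rw [← h3]
          have := (k + 1).factorial_pos
          calc (n - (k + 1)).factorial * n.choose (k + 1)
              = n.choose (k + 1) * 1 * (n - (k + 1)).factorial := by ring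
            _ ≤ _ := by gcongr; omega
        rw [mul_assoc]
        exact Nat.mul_le_mul (nSparse_ge n k) h4
      · rw [Nat.choose_eq_zero_of_lt (by omega)]; simp)
  have t2 := (t.const_mul ((2 : ℝ) ^ (k + 1))).const_sub ((2 : ℝ) ^ (k + 1) / (k + 1).factorial)
  simp only [mul_zero, sub_zero] at t2
  have hk : (0 : ℝ) < (k + 1).factorial := by exact_mod_cast (k + 1).factorial_pos
  refine tendsto_of_tendsto_of_tendsto_of_le_of_le' t2 tendsto_const_nhds ?_
    (Eventually.of_forall fun n => ?_)
  · filter_upwards [eventually_ge_atTop (k + 1)] with n hn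
    have hf : (0 : ℝ) < n.factorial := by exact_mod_cast n.factorial_pos
    have h3 : (n.choose (k + 1) : ℝ) * (k + 1).factorial * (n - (k + 1)).factorial = n.factorial := by
      exact_mod_cast Nat.choose_mul_factorial_mul_factorial hn
    have h4 : (nSparse n (k + 1) : ℝ) * (2 ^ (k + 1) * (n - (k + 1)).factorial) ≤ SS n (k + 1) := by
      exact_mod_cast SS_ge n (k + 1)
    have h5 : (n.choose (k + 1) : ℝ) - nSparse n (k + 1) ≤
        ((n.choose (k + 1) - nSparse n (k + 1) : ℕ) : ℝ) := by
      have : n.choose (k + 1) ≤ (n.choose (k + 1) - nSparse n (k + 1)) + nSparse n (k + 1) := by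
        omega
      have : (n.choose (k + 1) : ℝ) ≤ ((n.choose (k + 1) - nSparse n (k + 1) : ℕ) : ℝ) +
          nSparse n (k + 1) := by exact_mod_cast this
      linarith
    have h6 : (2 : ℝ) ^ (k + 1) / (k + 1).factorial =
        2 ^ (k + 1) * (n.choose (k + 1) * (n - (k + 1)).factorial) / n.factorial := by
      rw [← h3]
      have : (0 : ℝ) < n.choose (k + 1) := by exact_mod_cast Nat.choose_pos hn
      have : (0 : ℝ) < (n - (k + 1)).factorial := by exact_mod_cast (n - (k + 1)).factorial_pos
      field_simp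
    rw [h6, ← mul_div_assoc, ← sub_div]
    gcongr
    refine le_trans ?_ h4
    push_cast
    have e1 : (0 : ℝ) ≤ 2 ^ (k + 1) * (n - (k + 1)).factorial := by positivity
    have := mul_le_mul_of_nonneg_right h5 e1
    nlinarith
  · have hf : (0 : ℝ) < n.factorial := by exact_mod_cast n.factorial_pos
    rw [div_le_div_iff₀ hf hk]
    exact_mod_cast SS_le n (k + 1)

theorem tendsto_noAdj :
    Tendsto (fun n => (cnt (fun π : Equiv.Perm (Fin n) => NoAdj π) : ℝ) / n.factorial) atTop
      (𝓝 (Real.exp (-2))) := by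
  have h := tendsto_tsum_of_dominated_convergence (𝓕 := atTop)
    (f := fun (n k : ℕ) => (-1 : ℝ) ^ k * ((SS n k : ℝ) / n.factorial))
    (g := fun k => (-1 : ℝ) ^ k * (2 ^ k / k.factorial)) (bound := fun k => 2 ^ k / k.factorial)
    (Real.summable_pow_div_factorial 2) (fun k => (tendsto_SS k).const_mul _)
    (Eventually.of_forall fun n k => by
      have hf : (0 : ℝ) < n.factorial := by exact_mod_cast n.factorial_pos
      have hk : (0 : ℝ) < k.factorial := by exact_mod_cast k.factorial_pos
      rw [norm_mul, norm_pow, norm_neg, norm_one, one_pow, one_mul,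
        Real.norm_of_nonneg (by positivity), div_le_div_iff₀ hf hk]
      exact_mod_cast SS_le n k)
  have e : ∑' k : ℕ, (-1 : ℝ) ^ k * (2 ^ k / k.factorial) = Real.exp (-2) := by
    rw [Real.exp_eq_exp_ℝ, ← (NormedSpace.expSeries_div_hasSum_exp (-2 : ℝ)).tsum_eq]
    congr 1
    ext k
    rw [← mul_div_assoc, ← mul_pow]
    norm_num
  rw [e] at h
  refine h.congr fun n => ?_
  rw [incl_excl, Finset.sum_div, tsum_eq_sum (s := range (n - 1 + 1))]
  · exact Finset.sum_congr rfl fun k _ => by rw [mul_div_assoc]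
  · intro k hk
    have : SS n k = 0 := by
      unfold SS
      rw [Finset.powersetCard_eq_empty.2 (by simp only [mem_range, not_lt] at hk; simp; omega)]
      simp
    simp [this]

end Pool.Agent.Lib.MP_d28c7d_co
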