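import Pool.Agent.Lib.MP_d28c7d_co.Force
import Pool.Agent.Lib.MP_d28c7d_co.Hertz

set_option autoImplicit false

namespace Pool.Agent.Lib.MP_d28c7d_co

open Finset Filter Topology

theorem unsplittable_iff {n : ℕ} (hn : 100 ≤ n) {π : Equiv.Perm (Fin n)} (h : Typ π) :
    Unsplittable (Av ⟨n, π⟩) ↔ NoAdj π := by
  obtain ⟨h1, h2, h3, h4, h5⟩ := h
  constructor
  · intro hU i _ hA
    obtain ⟨p, q, hp, hq, h | h⟩ := hA
    · exact splittable_of_typical hn h1 h2 h3 h4 p q (Or.inl (by omega)) h hU
    · exact splittable_of_typical hn h1 h2 h3 h4 q p (Or.inr (by omega)) h hU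
  · intro hN
    refine unsplittable_of_simple π (simple_of_typical hn h3 h4 h5 fun p q hq h => ?_)
    have := q.2
    exact hN p (mem_range.2 (by omega)) ⟨p, q, rfl, hq, h⟩

theorem prob_eq (n : ℕ) : probUnsplittable n =
    (cnt (fun π : Equiv.Perm (Fin n) => Unsplittable (Av ⟨n, π⟩)) : ℝ) / n.factorial := by
  classical
  unfold probUnsplittable cnt
  rw [Nat.card_eq_fintype_card, Fintype.card_subtype]

theorem main : Tendsto probUnsplittable atTop (𝓝 (Real.exp (-2))) := by
  have lo := tendsto_noAdj.sub tendsto_atypical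
  have hi := tendsto_noAdj.add tendsto_atypical
  simp only [sub_zero, add_zero] at lo hi
  refine tendsto_of_tendsto_of_tendsto_of_le_of_le' lo hi ?_ ?_
  · filter_upwards [eventually_ge_atTop 100] with n hn
    rw [prob_eq, ← sub_div]
    gcongr
    have : cnt (fun π : Equiv.Perm (Fin n) => NoAdj π) ≤
        cnt (fun π : Equiv.Perm (Fin n) => Unsplittable (Av ⟨n, π⟩)) +
          cnt (fun π : Equiv.Perm (Fin n) => ¬ Typ π) := by
      refine le_trans (cnt_mono fun π h => ?_) (cnt_or _ _)
      by_cases ht : Typ π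
      · exact Or.inl ((unsplittable_iff hn ht).2 h)
      · exact Or.inr ht
    have : (cnt (fun π : Equiv.Perm (Fin n) => NoAdj π) : ℝ) ≤
        cnt (fun π : Equiv.Perm (Fin n) => Unsplittable (Av ⟨n, π⟩)) +
          cnt (fun π : Equiv.Perm (Fin n) => ¬ Typ π) := by exact_mod_cast this
    linarith
  · filter_upwards [eventually_ge_atTop 100] with n hn
    rw [prob_eq, ← add_div]
    gcongr
    have : cnt (fun π : Equiv.Perm (Fin n) => Unsplittable (Av ⟨n, π⟩)) ≤
        cnt (fun π : Equiv.Perm (Fin n) => NoAdj π) +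
          cnt (fun π : Equiv.Perm (Fin n) => ¬ Typ π) := by
      refine le_trans (cnt_mono fun π h => ?_) (cnt_or _ _)
      by_cases ht : Typ π
      · exact Or.inl ((unsplittable_iff hn ht).1 h)
      · exact Or.inr ht
    exact_mod_cast this

end Pool.Agent.Lib.MP_d28c7d_co
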