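import Pool.Agent.Lib.MP_d28c7d_co.Config

set_option autoImplicit false

namespace Pool.Agent.Lib.MP_d28c7d_co

open Finset

/-- Boundary zone. -/
def Bd {n : ℕ} (p : Fin n) : Prop := (p : ℕ) < 30 ∨ n ≤ (p : ℕ) + 30

def T1 {n : ℕ} (π : Equiv.Perm (Fin n)) : Prop :=
  ∀ p q : Fin n, p ≠ q → Bd p → Bd q → (π p : ℕ) + 12 < π q ∨ (π q : ℕ) + 12 < π p

def T2 {n : ℕ} (π : Equiv.Perm (Fin n)) : Prop :=
  ∀ p q : Fin n, p ≠ q → Bd (π p) → Bd (π q) → (p : ℕ) + 12 < q ∨ (q : ℕ) + 12 < p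

def T3 {n : ℕ} (π : Equiv.Perm (Fin n)) : Prop := ∀ p : Fin n, Bd p → ¬ Bd (π p)

/-- Convex up to three holes. -/
def QI {n : ℕ} (φ : Equiv.Perm (Fin n)) (A : Finset (Fin n)) : Prop :=
  ∃ d₁ d₂ d₃ : Fin n, ∀ q₁ q q₂, q₁ ∈ A → q₂ ∈ A → φ q₁ < φ q → φ q < φ q₂ →
    q ∈ A ∨ q = d₁ ∨ q = d₂ ∨ q = d₃

def T4 {n : ℕ} (π : Equiv.Perm (Fin n)) : Prop :=
  ∀ A : Finset (Fin n), QI 1 A → QI π A → A.card < 11 ∨ n < A.card + 11

def T5 {n : ℕ} (π : Equiv.Perm (Fin n)) : Prop :=
  ∀ p q r : Fin n, (q : ℕ) = p + 1 → (r : ℕ) = p + 2 →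
    (π p : ℕ) + 12 < π q ∨ (π q : ℕ) + 12 < π p ∨ (π p : ℕ) + 12 < π r ∨ (π r : ℕ) + 12 < π p

theorem card_le_lower {n : ℕ} (φ : Equiv.Perm (Fin n)) (b : Fin n) (S : Finset (Fin n))
    (h : ∀ q, φ q ≤ φ b → q ∈ S) : (φ b : ℕ) + 1 ≤ S.card := by
  classical
  have h1 : (Finset.Iic (φ b)).card ≤ S.card := by
    refine Finset.card_le_card_of_injOn (fun z => φ.symm z) (fun z hz => ?_) ?_
    · apply h
      simpa using hz
    · exact φ.symm.injective.injOn
  rwa [Fin.card_Iic] at h1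

theorem card_le_upper {n : ℕ} (φ : Equiv.Perm (Fin n)) (b : Fin n) (S : Finset (Fin n))
    (h : ∀ q, φ b ≤ φ q → q ∈ S) : n ≤ (φ b : ℕ) + S.card := by
  classical
  have h1 : (Finset.Ici (φ b)).card ≤ S.card := by
    refine Finset.card_le_card_of_injOn (fun z => φ.symm z) (fun z hz => ?_) ?_
    · apply h
      simpa using hz
    · exact φ.symm.injective.injOn
  rw [Fin.card_Ici] at h1
  omega

/-- Displacement bound for an order preserving map defined on a large subset. -/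
theorem displacement {n : ℕ} (φ : Equiv.Perm (Fin n)) (A : Finset (Fin n)) (g : Fin n → Fin n)
    (hg : ∀ a ∈ A, ∀ b ∈ A, φ a < φ b → φ (g a) < φ (g b)) (q : Fin n) (hq : q ∈ A) :
    (φ (g q) : ℕ) + A.card ≤ φ q + n ∧ (φ q : ℕ) + A.card ≤ φ (g q) + n := by
  classical
  have hinj : Set.InjOn (fun a => φ (g a)) A := by
    intro a ha b hb hab
    rcases lt_trichotomy (φ a) (φ b) with h | h | h
    · exact absurd hab (hg a ha b hb h).ne
    · exact φ.injective h
    · exact absurd hab (hg b hb a ha h).ne'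
  have hc : Aᶜ.card + A.card = n := by
    rw [Finset.card_compl, Fintype.card_fin]
    have := Finset.card_le_univ A
    rw [Fintype.card_fin] at this
    omega
  constructor
  · have h1 := card_le_upper φ q (A.filter (fun a => φ q ≤ φ a) ∪ Aᶜ) (by
      intro z hz
      by_cases hzA : z ∈ A
      · simp [hzA, hz]
      · simp [hzA])
    have h2 : (A.filter (fun a => φ q ≤ φ a)).card ≤ (Finset.Ici (φ (g q))).card := by
      refine Finset.card_le_card_of_injOn (fun a => φ (g a)) (fun z hz => ?_) ?_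
      · simp only [coe_filter, Set.mem_ofPred_eq] at hz
        simp only [coe_Ici, Set.mem_Ici]
        rcases hz.2.lt_or_eq with h | h
        · exact (hg q hq z hz.1 h).le
        · rw [φ.injective h]
      · exact hinj.mono (by intro z hz; simp only [coe_filter, Set.mem_ofPred_eq] at hz; exact hz.1)
    rw [Fin.card_Ici] at h2
    have h3 := Finset.card_union_le (A.filter (fun a => φ q ≤ φ a)) Aᶜ
    have h4 := (φ (g q)).2
    omega
  · have h1 := card_le_lower φ q (A.filter (fun a => φ a ≤ φ q) ∪ Aᶜ) (by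
      intro z hz
      by_cases hzA : z ∈ A
      · simp [hzA, hz]
      · simp [hzA])
    have h2 : (A.filter (fun a => φ a ≤ φ q)).card ≤ (Finset.Iic (φ (g q))).card := by
      refine Finset.card_le_card_of_injOn (fun a => φ (g a)) (fun z hz => ?_) ?_
      · simp only [coe_filter, Set.mem_ofPred_eq] at hz
        simp only [coe_Iic, Set.mem_Iic]
        rcases hz.2.lt_or_eq with h | h
        · exact (hg z hz.1 q hq h).le
        · rw [φ.injective h]
      · exact hinj.mono (by intro z hz; simp only [coe_filter, Set.mem_ofPred_eq] at hz; exact hz.1)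
    rw [Fin.card_Iic] at h2
    have h3 := Finset.card_union_le (A.filter (fun a => φ a ≤ φ q)) Aᶜ
    omega

theorem fixed_of_maps {n : ℕ} (A : Finset (Fin n)) (g : Fin n → Fin n)
    (hg : ∀ a ∈ A, ∀ b ∈ A, a < b → g a < g b) (hA : ∀ a ∈ A, g a ∈ A) (q : Fin n) (hq : q ∈ A) :
    g q = q := by
  let g' : {a // a ∈ A} → {a // a ∈ A} := fun a => ⟨g a.1, hA a.1 a.2⟩
  have hm : StrictMono g' := fun a b hab => hg a.1 a.2 b.1 b.2 hab
  have h1 : (⟨q, hq⟩ : {a // a ∈ A}) ≤ g' ⟨q, hq⟩ := hm.le_apply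
  have h2 : g' ⟨q, hq⟩ ≤ (⟨q, hq⟩ : {a // a ∈ A}) := hm.apply_le
  exact le_antisymm h2 h1

theorem isolated {n : ℕ} {π : Equiv.Perm (Fin n)} (h1 : T1 π) (h2 : T2 π) (b q : Fin n)
    (hb : (b : ℕ) ≤ 12 ∨ n ≤ (b : ℕ) + 12 ∨ (π b : ℕ) ≤ 12 ∨ n ≤ (π b : ℕ) + 12) (hne : b ≠ q)
    (c1 : (b : ℕ) ≤ q + 12) (c2 : (q : ℕ) ≤ b + 12) (c3 : (π b : ℕ) ≤ π q + 12)
    (c4 : (π q : ℕ) ≤ π b + 12) : False := by
  rcases hb with hb | hb | hb | hb
  · have := h1 b q hne (Or.inl (by omega)) (Or.inl (by omega)); omega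
  · have := h1 b q hne (Or.inr (by omega)) (Or.inr (by omega)); omega
  · have := h2 b q hne (Or.inl (by omega)) (Or.inl (by omega)); omega
  · have := h2 b q hne (Or.inr (by omega)) (Or.inr (by omega)); omega

/-- A self-embedding defined off a small set of boundary points is the identity. -/
theorem rigid {n : ℕ} {π : Equiv.Perm (Fin n)} (h1 : T1 π) (h2 : T2 π) (A : Finset (Fin n))
    (g : Fin n → Fin n) (hA : n ≤ A.card + 12)
    (hg1 : ∀ a ∈ A, ∀ b ∈ A, a < b → g a < g b)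
    (hg2 : ∀ a ∈ A, ∀ b ∈ A, π a < π b → π (g a) < π (g b))
    (hb : ∀ b, b ∉ A → (b : ℕ) ≤ 12 ∨ n ≤ (b : ℕ) + 12 ∨ (π b : ℕ) ≤ 12 ∨ n ≤ (π b : ℕ) + 12)
    (q : Fin n) (hq : q ∈ A) : g q = q := by
  refine fixed_of_maps A g hg1 (fun a ha => ?_) q hq
  by_contra hna
  have d1 := displacement 1 A g (by simpa using hg1) a ha
  have d2 := displacement π A g hg2 a ha
  simp only [Equiv.Perm.coe_one, id_eq] at d1
  refine isolated h1 h2 (g a) a (hb _ hna) (fun h => hna (by rw [h]; exact ha)) ?_ ?_ ?_ ?_ <;> omega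

theorem exists_pre {n : ℕ} (hn : 0 < n) (F : Fin n → ℤ) (hF : Function.Injective F) (t : ℤ) :
    ∃ d : Fin n, ∀ q, F q = t → q = d := by
  by_cases h : ∃ q, F q = t
  · obtain ⟨q, hq⟩ := h
    exact ⟨q, fun q' hq' => hF (hq'.trans hq.symm)⟩
  · exact ⟨⟨0, hn⟩, fun q hq => absurd ⟨q, hq⟩ h⟩

theorem simple_of_typical {n : ℕ} (hn : 100 ≤ n) {π : Equiv.Perm (Fin n)} (h3 : T3 π) (h4 : T4 π)
    (h5 : T5 π)
    (hno : ∀ p q : Fin n, (q : ℕ) = p + 1 → ¬ ((π q : ℕ) = π p + 1 ∨ (π p : ℕ) = π q + 1)) :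
    Simple π := by
  classical
  intro A hA1 hA2
  by_contra hcon
  push Not at hcon
  obtain ⟨hc1, hc2⟩ := hcon
  have hne : A.Nonempty := Finset.card_pos.1 (by omega)
  have hd : Fin n := ⟨0, by omega⟩
  -- spread of values inside `A`
  have spread : ∀ (φ : Equiv.Perm (Fin n)), Conv φ A → ∀ a ∈ A, ∀ b ∈ A,
      (φ b : ℕ) + 1 ≤ φ a + A.card := by
    intro φ hφ a ha b hb
    have h1 : (Finset.Icc (φ a) (φ b)).card ≤ A.card := by
      refine Finset.card_le_card_of_injOn (fun z => φ.symm z) (fun z hz => ?_) ?_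
      · simp only [coe_Icc, Set.mem_Icc] at hz
        simp only [mem_coe]
        rcases hz.1.lt_or_eq with h | h
        · rcases hz.2.lt_or_eq with h' | h'
          · exact hφ a _ b ha hb (by simpa using h) (by simpa using h')
          · rw [h']; simpa using hb
        · rw [← h]; simpa using ha
      · exact φ.symm.injective.injOn
    rw [Fin.card_Icc] at h1
    omega
  rcases h4 A ⟨hd, hd, hd, fun q₁ q q₂ a b c d => Or.inl (hA1 q₁ q q₂ a b c d)⟩
    ⟨hd, hd, hd, fun q₁ q q₂ a b c d => Or.inl (hA2 q₁ q q₂ a b c d)⟩ with hs | hs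
  · -- small interval
    obtain ⟨a, ha, hmin⟩ := Finset.exists_min_image A (fun z => (z : ℕ)) hne
    obtain ⟨b, hb, hmax⟩ := Finset.exists_max_image A (fun z => (z : ℕ)) hne
    have hsub : A.card ≤ (Finset.Icc a b).card := by
      apply Finset.card_le_card
      intro z hz
      simp only [mem_Icc, Fin.le_def]
      exact ⟨hmin z hz, hmax z hz⟩
    rw [Fin.card_Icc] at hsub
    have hbn := b.2
    have mem : ∀ z : Fin n, (a : ℕ) ≤ z → (z : ℕ) ≤ b → z ∈ A := by
      intro z h1 h2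
      rcases h1.lt_or_eq with h | h
      · rcases h2.lt_or_eq with h' | h'
        · exact hA1 a z b ha hb (Fin.lt_def.2 h) (Fin.lt_def.2 h')
        · rw [Fin.ext h']; exact hb
      · rw [← Fin.ext h]; exact ha
    let q : Fin n := ⟨a + 1, by omega⟩
    have hq : q ∈ A := mem q (by simp [q]) (by simp only [q]; omega)
    by_cases h2 : A.card = 2
    · have s1 := spread π hA2 a ha q hq
      have s2 := spread π hA2 q hq a ha
      have s3 : (π a : ℕ) ≠ π q := by
        intro h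
        have := π.injective (Fin.ext h)
        have := congrArg Fin.val this
        simp [q] at this
      exact hno a q rfl (by omega)
    · let r : Fin n := ⟨a + 2, by omega⟩
      have hr : r ∈ A := mem r (by simp [r]) (by simp only [r]; omega)
      have s1 := spread π hA2 a ha q hq
      have s2 := spread π hA2 q hq a ha
      have s3 := spread π hA2 a ha r hr
      have s4 := spread π hA2 r hr a ha
      have := h5 a q r rfl rfl
      omega
  · -- large interval
    obtain ⟨p, hp⟩ : ∃ p, p ∉ A := by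
      by_contra hh
      push Not at hh
      exact hc2 (Finset.eq_univ_of_forall hh)
    have hc : Aᶜ.card + A.card = n := by
      rw [Finset.card_compl, Fintype.card_fin]
      have := Finset.card_le_univ A
      rw [Fintype.card_fin] at this
      omega
    have out : ∀ (φ : Equiv.Perm (Fin n)), Conv φ A → Bd (φ p) := by
      intro φ hφ
      by_cases hl : ∀ q, φ q ≤ φ p → q ∈ Aᶜ
      · have := card_le_lower φ p Aᶜ hl
        left; omega
      · by_cases hu : ∀ q, φ p ≤ φ q → q ∈ Aᶜ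
        · have := card_le_upper φ p Aᶜ hu
          right; omega
        · push Not at hl hu
          obtain ⟨q₁, hq₁, hq₁'⟩ := hl
          obtain ⟨q₂, hq₂, hq₂'⟩ := hu
          simp only [mem_compl, not_not] at hq₁' hq₂'
          exfalso
          refine hp (hφ q₁ p q₂ hq₁' hq₂' (lt_of_le_of_ne hq₁ fun h => ?_) (lt_of_le_of_ne hq₂ fun h => ?_))
          · exact hp (φ.injective h ▸ hq₁')
          · exact hp ((φ.injective h).symm ▸ hq₂')
    exact h3 p (by simpa using out 1 hA1) (out π hA2)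

/-- Mirror image. -/
def mir {n : ℕ} (π : Equiv.Perm (Fin n)) : Equiv.Perm (Fin n) := Fin.revPerm.trans π

theorem mir_apply {n : ℕ} (π : Equiv.Perm (Fin n)) (i : Fin n) : mir π i = π (Fin.rev i) := rfl

theorem Bd_rev {n : ℕ} {p : Fin n} (h : Bd p) : Bd (Fin.rev p) := by
  unfold Bd at h ⊢
  rw [Fin.val_rev]
  have := p.2
  omega

theorem T1_mir {n : ℕ} {π : Equiv.Perm (Fin n)} (h : T1 π) : T1 (mir π) := by
  intro p q hpq hp hq
  exact h _ _ (fun h' => hpq (Fin.rev_injective h')) (Bd_rev hp) (Bd_rev hq)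

theorem T2_mir {n : ℕ} {π : Equiv.Perm (Fin n)} (h : T2 π) : T2 (mir π) := by
  intro p q hpq hp hq
  have := h _ _ (fun h' => hpq (Fin.rev_injective h')) hp hq
  rw [Fin.val_rev, Fin.val_rev] at this
  have := p.2
  have := q.2
  omega

theorem T3_mir {n : ℕ} {π : Equiv.Perm (Fin n)} (h : T3 π) : T3 (mir π) := by
  intro p hp
  exact h _ (Bd_rev hp)

theorem T4_mir {n : ℕ} {π : Equiv.Perm (Fin n)} (h : T4 π) : T4 (mir π) := by
  classical
  intro A hA1 hA2
  have hm : ∀ z, z ∈ A.map Fin.revPerm.toEmbedding ↔ Fin.rev z ∈ A := by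
    intro z
    rw [Finset.mem_map_equiv]
    simp
  have := h (A.map Fin.revPerm.toEmbedding) ?_ ?_
  · simpa using this
  · obtain ⟨d₁, d₂, d₃, hd⟩ := hA1
    refine ⟨d₁.rev, d₂.rev, d₃.rev, fun q₁ q q₂ a b c d => ?_⟩
    rw [hm] at a b ⊢
    have := hd q₂.rev q.rev q₁.rev b a (by simpa using d) (by simpa using c)
    simpa only [Fin.rev_eq_iff] using this
  · obtain ⟨d₁, d₂, d₃, hd⟩ := hA2
    refine ⟨d₁.rev, d₂.rev, d₃.rev, fun q₁ q q₂ a b c d => ?_⟩
    rw [hm] at a b ⊢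
    have := hd q₁.rev q.rev q₂.rev a b (by simpa [mir_apply] using c) (by simpa [mir_apply] using d)
    simpa only [Fin.rev_eq_iff] using this

end Pool.Agent.Lib.MP_d28c7d_co
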